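import Pool.Agent.TH629.RidM
import Pool.Agent.W47.JL.Single

/-!
# Error complexity of numbers which are badly approximable by fractions with denominators `b^u q`
-/

set_option autoImplicit false

namespace Pool.Agent.TH629.ErrC

open Finset Polynomial
open Pool.Agent.H831R3.LC (W dig dig_abs)
open Pool.Agent.W47.JL (S_SMALL S_DESC S_APPROX M1 M1_ge eval_le err params err_ge err_sq err_le
  log_facts)

/-- inequality for a gap between two errors -/
theorem gap2 (hAP : S_APPROX) (x ε c0 : ℝ) (hε : 0 < ε) (hc0 : 0 < c0) (b : ℕ) (hb : 2 ≤ b)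
    (hM : ∀ q : ℕ, 1 ≤ q → ∀ u : ℕ, b ^ u ∣ q → ∀ p : ℤ,
      c0 * (b : ℝ) ^ u ≤ (q : ℝ) ^ (1 + ε) * |q * x - p|)
    (m k L K : ℕ) (s : ℕ → ℤ) (t : ℤ[X]) (htd : t.natDegree ≤ m + k)
    (htH : ∀ i, |t.coeff i| ≤ (((m + 1 + k) * b) ^ K : ℕ))
    (hL : m + k ≤ L) (htr : ∀ i < L - (m + k), W t s i = 0) (ht0 : t.eval (b : ℤ) ≠ 0)
    (u v : ℕ) (hvL : v ≤ L)
    (hdig : ∀ i, u ≤ i → i < v → s i = dig x b (i + 1)) :
    (v : ℝ) ≤ (1 + ε) * (u + M1 b m k K) + M1 b m k K + 3 / 2 * |Real.log c0| := by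
  have hbR : (2 : ℝ) ≤ b := by exact_mod_cast hb
  have hb0 : (0 : ℝ) < b := by linarith
  have hm0 : (0 : ℝ) ≤ m := Nat.cast_nonneg m
  have hk0 : (0 : ℝ) ≤ k := Nat.cast_nonneg k
  have hu0 : (0 : ℝ) ≤ u := Nat.cast_nonneg u
  have hM1 := M1_ge b m k K hb
  obtain ⟨T, hT⟩ : ∃ T : ℝ, T = u + M1 b m k K := ⟨_, rfl⟩
  rw [← hT]
  have hT0 : 0 ≤ T := by rw [hT]; linarith
  have hlb : 0.69 ≤ Real.log b := by
    have h1 := Real.log_two_gt_d9
    have h2 := Real.log_le_log (by norm_num : (0 : ℝ) < 2) hbR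
    linarith
  have hlb0 : 0 < Real.log b := by linarith
  have hc00 := abs_nonneg (Real.log c0)
  rcases lt_or_ge v (u + (m + k)) with hv | hv
  · have h1 : (v : ℝ) ≤ T := by
      have : (v : ℝ) ≤ u + (m + k) := by exact_mod_cast hv.le
      rw [hT]; linarith
    have h2 : T ≤ (1 + ε) * T := by nlinarith
    linarith
  -- the approximation
  obtain ⟨p, hp⟩ := hAP x b (((m + 1 + k) * b) ^ K) (L - (m + k)) (m + k) u v s t (by omega)
    htH htd htr (fun i h1 h2 => hdig i h1 h2) hv (by omega)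
  obtain ⟨q, hq⟩ : ∃ q : ℕ, q = (t.eval (b : ℤ)).natAbs * b ^ u := ⟨_, rfl⟩
  have hq1 : 1 ≤ q := by
    rw [hq]
    exact Nat.mul_pos (Int.natAbs_pos.2 ht0) (by positivity)
  have hqR : (q : ℝ) = |((t.eval (b : ℤ) : ℤ) : ℝ)| * (b : ℝ) ^ u := by
    rw [hq]; push_cast
    rw [Nat.cast_natAbs, Int.cast_abs]
  have hq1R : (1 : ℝ) ≤ q := by exact_mod_cast hq1
  obtain ⟨X, hX⟩ : ∃ X : ℝ, X = ((m : ℝ) + k + 1) * (((m : ℝ) + 1 + k) * b) ^ K := ⟨_, rfl⟩
  have hX0 : 0 < X := by rw [hX]; positivity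
  have hXe : (((m + k : ℕ) : ℝ) + 1) * (((m + 1 + k) * b) ^ K : ℕ) = X := by
    rw [hX]; push_cast; ring
  have hqle : (q : ℝ) ≤ X * (b : ℝ) ^ (m + k + u) := by
    have h1 := eval_le t (((m + 1 + k) * b) ^ K) (m + k) b (by omega) htH htd
    have h2 : |((t.eval (b : ℤ) : ℤ) : ℝ)| ≤ X * (b : ℝ) ^ (m + k) := by
      rw [← hXe]
      exact_mod_cast h1
    rw [hqR, pow_add]
    calc |((t.eval (b : ℤ) : ℤ) : ℝ)| * (b : ℝ) ^ u ≤ X * (b : ℝ) ^ (m + k) * (b : ℝ) ^ u :=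
          mul_le_mul_of_nonneg_right h2 (by positivity)
      _ = _ := by ring
  have hqx : ∃ p' : ℤ, |(q : ℝ) * x - p'| =
      |((t.eval (b : ℤ) : ℤ) : ℝ) * (b : ℝ) ^ u * x - p| := by
    rcases abs_cases ((t.eval (b : ℤ) : ℤ) : ℝ) with ⟨h1, _⟩ | ⟨h1, _⟩
    · exact ⟨p, by rw [hqR, h1]⟩
    · refine ⟨-p, ?_⟩
      rw [hqR, h1, ← abs_neg]
      congr 1
      push_cast
      ring
  obtain ⟨p', hp'⟩ := hqx
  have hj := hM q hq1 u (by rw [hq]; exact dvd_mul_left _ _) p'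
  rw [hp'] at hj
  rw [hXe] at hp
  obtain ⟨w, hw⟩ : ∃ w : ℕ, v = m + k + u + w := ⟨v - (m + k) - u, by omega⟩
  rw [show v - (m + k) - u = w by omega] at hp
  have hlogq : Real.log q ≤ T * Real.log b := by
    have h1 := Real.log_le_log (by linarith) hqle
    rw [Real.log_mul hX0.ne' (by positivity), Real.log_pow] at h1
    have h2 : T * Real.log b = Real.log X + ((m + k + u : ℕ) : ℝ) * Real.log b := by
      rw [hT, M1, ← hX]
      push_cast
      field_simp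
      ring
    rw [h2]
    exact h1
  have h2 : c0 * (b : ℝ) ^ (u + w) ≤ (q : ℝ) ^ (1 + ε) * X := by
    calc c0 * (b : ℝ) ^ (u + w) = c0 * (b : ℝ) ^ u * (b : ℝ) ^ w := by rw [pow_add]; ring
      _ ≤ ((q : ℝ) ^ (1 + ε) *
          |((t.eval (b : ℤ) : ℤ) : ℝ) * (b : ℝ) ^ u * x - p|) * (b : ℝ) ^ w :=
          mul_le_mul_of_nonneg_right hj (by positivity)
      _ = (q : ℝ) ^ (1 + ε) *
          (|((t.eval (b : ℤ) : ℤ) : ℝ) * (b : ℝ) ^ u * x - p| * (b : ℝ) ^ w) := by ring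
      _ ≤ _ := mul_le_mul_of_nonneg_left hp (by positivity)
  have h3 := Real.log_le_log (by positivity) h2
  rw [Real.log_mul hc0.ne' (by positivity), Real.log_pow,
    Real.log_mul (by positivity) hX0.ne', Real.log_rpow (by linarith)] at h3
  have h6 := mul_le_mul_of_nonneg_left hlogq (by linarith : 0 ≤ 1 + ε)
  have h7 : -|Real.log c0| ≤ Real.log c0 := neg_abs_le _
  have h8 : M1 b m k K * Real.log b = (m + k) * Real.log b + Real.log X := by
    rw [M1, ← hX]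
    field_simp
  have h9 : (v : ℝ) = m + k + (u + w) := by rw [hw]; push_cast; ring
  have h11 : |Real.log c0| ≤ 3 / 2 * |Real.log c0| * Real.log b := by nlinarith
  have h13 : (v : ℝ) * Real.log b ≤
      ((1 + ε) * T + M1 b m k K + 3 / 2 * |Real.log c0|) * Real.log b := by
    have h3' : Real.log c0 + ((u : ℝ) + w) * Real.log b ≤ (1 + ε) * Real.log q + Real.log X := by
      have e : (((u + w : ℕ)) : ℝ) = (u : ℝ) + w := by push_cast; ring
      rw [e] at h3
      exact h3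
    have e1 : ((1 + ε) * T + M1 b m k K + 3 / 2 * |Real.log c0|) * Real.log b =
        (1 + ε) * (T * Real.log b) + M1 b m k K * Real.log b +
          3 / 2 * |Real.log c0| * Real.log b := by ring
    rw [h9, e1, h8]
    linarith
  exact le_of_mul_le_mul_right h13 hlb0

/-- an interval of length `L` with at most `k` marked points -/
theorem intervals (R : ℝ) (hR : 0 ≤ R) (E : Finset ℕ) (L : ℕ)
    (hgap : ∀ u v : ℕ, u ≤ v → v ≤ L → (∀ i ∈ E, i < u ∨ v ≤ i) → (v : ℝ) ≤ u + R) :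
    ∀ k v : ℕ, v ≤ L → (E.filter (· < v)).card ≤ k → (v : ℝ) ≤ (k + 1) * (R + 1) := by
  have hfree : ∀ v : ℕ, v ≤ L → E.filter (· < v) = ∅ → (v : ℝ) ≤ R := by
    intro v hv hE
    have h1 := hgap 0 v (Nat.zero_le _) hv (fun i hi => by
      right
      by_contra h
      push Not at h
      have : i ∈ E.filter (· < v) := by
        rw [mem_filter]; exact ⟨hi, h⟩
      rw [hE] at this
      simp at this)
    simpa using h1
  intro k
  induction k with
  | zero =>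
    intro v hv hE
    have := hfree v hv (card_eq_zero.1 (by omega))
    push_cast
    linarith
  | succ k ih =>
    intro v hv hE
    have hk : (0 : ℝ) ≤ k := Nat.cast_nonneg k
    by_cases hemp : E.filter (· < v) = ∅
    · have := hfree v hv hemp
      push_cast
      nlinarith
    · have hne : (E.filter (· < v)).Nonempty := Finset.nonempty_iff_ne_empty.2 hemp
      set e := (E.filter (· < v)).max' hne with he
      have hemem : e ∈ E.filter (· < v) := Finset.max'_mem _ _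
      have hev : e < v := (mem_filter.1 hemem).2
      have hcard : (E.filter (· < e)).card ≤ k := by
        have hss : E.filter (· < e) ⊂ E.filter (· < v) := by
          rw [Finset.ssubset_iff_of_subset]
          · exact ⟨e, hemem, by simp⟩
          · intro i hi
            rw [mem_filter] at hi ⊢
            exact ⟨hi.1, by omega⟩
        have := Finset.card_lt_card hss
        omega
      have h1 := ih e (by omega) hcard
      have h2 := hgap (e + 1) v (by omega) hv (fun i hi => by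
          by_contra h
          push Not at h
          have : i ∈ E.filter (· < v) := by
            rw [mem_filter]; exact ⟨hi, by omega⟩
          have := Finset.le_max' _ _ this
          omega)
      push_cast at h2 ⊢
      nlinarith

/-- the error term is small -/
theorem err_small (η : ℝ) (hη : 0 < η) : ∃ C : ℝ, 0 ≤ C ∧ ∀ m : ℕ, err m ≤ η * m + C := by
  obtain ⟨κ, hκ⟩ : ∃ κ : ℝ, κ = η ^ 2 := ⟨_, rfl⟩
  have hκ0 : 0 < κ := by rw [hκ]; positivity
  refine ⟨2 * η + |(1 + Real.log κ)| / (2 * η) , by positivity, fun m => ?_⟩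
  have hm0 : (0 : ℝ) ≤ m := Nat.cast_nonneg m
  have hsq := err_sq m
  have h0 := err_ge m
  have h1 : Real.log (κ * ((m : ℝ) + 2)) ≤ κ * ((m : ℝ) + 2) - 1 :=
    Real.log_le_sub_one_of_pos (by positivity)
  rw [Real.log_mul hκ0.ne' (by positivity)] at h1
  have h2 : Real.log ((m : ℝ) + 2) ≤ κ * ((m : ℝ) + 2) + |1 + Real.log κ| := by
    have := neg_abs_le (1 + Real.log κ)
    linarith
  obtain ⟨Z, hZ⟩ : ∃ Z : ℝ, Z = |1 + Real.log κ| := ⟨_, rfl⟩
  have hZ0 : 0 ≤ Z := by rw [hZ]; exact abs_nonneg _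
  rw [← hZ] at h2 ⊢
  -- `err ≤ η m + 2 η + Z / (2 η)`
  obtain ⟨y, hy⟩ : ∃ y : ℝ, y = Z / (2 * η) := ⟨_, rfl⟩
  have hy0 : 0 ≤ y := by rw [hy]; positivity
  have hyZ : Z = 2 * η * y := by rw [hy]; field_simp
  rw [← hy]
  have h3 : err m ^ 2 ≤ (η * m + (2 * η + y)) ^ 2 := by
    rw [hsq]
    calc ((m : ℝ) + 1) * Real.log ((m : ℝ) + 2) ≤ ((m : ℝ) + 1) * (κ * ((m : ℝ) + 2) + Z) :=
          mul_le_mul_of_nonneg_left h2 (by linarith)
      _ ≤ (η * m + (2 * η + y)) ^ 2 := by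
          rw [hκ, hyZ]
          nlinarith [mul_nonneg hη.le hy0, mul_nonneg (mul_nonneg hη.le hy0) hm0,
            mul_nonneg (sq_nonneg η) hm0, sq_nonneg η, sq_nonneg y]
  exact (abs_le_of_sq_le_sq' h3 (by positivity)).2

/-- **Error complexity, two-parameter measure.** -/
theorem main_two (x ε c0 : ℝ) (hε : 0 < ε) (hc0 : 0 < c0) (b : ℕ) (hb : 2 ≤ b)
    (hM : ∀ q : ℕ, 1 ≤ q → ∀ u : ℕ, b ^ u ∣ q → ∀ p : ℤ,
      c0 * (b : ℝ) ^ u ≤ (q : ℝ) ^ (1 + ε) * |q * x - p|)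
    (L m k : ℕ) (s : ℕ → ℤ) (hs : ∀ i < L, |s i| ≤ b)
    (hdig : ∃ E : Finset ℕ, E.card ≤ k ∧ ∀ i < L, i ∉ E → s i = dig x b (i + 1))
    (hrec : ∃ c : ℕ → ℚ, ∀ i, i + m < L → (s (i + m) : ℚ) = ∑ l ∈ range m, c l * (s (i + l) : ℚ)) :
    (L : ℝ) ≤ (k + 1) * ((2 + ε) * (m + 15 * err m) + ε * L + 3 / 2 * |Real.log c0| + 1) := by
  obtain ⟨E, hE, hdig⟩ := hdig
  obtain ⟨c, hc⟩ := hrec
  obtain ⟨k0, K, hk0, hK, hpar⟩ := params m
  have hbR : (2 : ℝ) ≤ b := by exact_mod_cast hb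
  have hpar1 : M1 b m k0 K ≤ m + 15 * err m := hpar b hbR
  have hM1 := M1_ge b m k0 K hb
  have hm0 : (0 : ℝ) ≤ m := Nat.cast_nonneg m
  have hk00 : (0 : ℝ) ≤ k0 := Nat.cast_nonneg k0
  have hkk : (0 : ℝ) ≤ k := Nat.cast_nonneg k
  have hL0 : (0 : ℝ) ≤ L := Nat.cast_nonneg L
  have hM10 : 0 ≤ M1 b m k0 K := by linarith
  have hc00 := abs_nonneg (Real.log c0)
  obtain ⟨R, hR⟩ : ∃ R : ℝ, R = (2 + ε) * M1 b m k0 K + ε * L + 3 / 2 * |Real.log c0| := ⟨_, rfl⟩
  have hR0 : 0 ≤ R := by rw [hR]; positivity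
  have hRle : R + 1 ≤ (2 + ε) * (m + 15 * err m) + ε * L + 3 / 2 * |Real.log c0| + 1 := by
    rw [hR]
    have := mul_le_mul_of_nonneg_left hpar1 (by linarith : 0 ≤ 2 + ε)
    linarith
  have hfin : (k + 1) * (R + 1) ≤
      (k + 1) * ((2 + ε) * (m + 15 * err m) + ε * L + 3 / 2 * |Real.log c0| + 1) :=
    mul_le_mul_of_nonneg_left hRle (by linarith)
  refine le_trans ?_ hfin
  have htriv : (L : ℝ) ≤ M1 b m k0 K + 1 → (L : ℝ) ≤ (k + 1) * (R + 1) := by
    intro h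
    have h1 : M1 b m k0 K ≤ R := by
      rw [hR]
      nlinarith [mul_nonneg hε.le hM10, mul_nonneg hε.le hL0]
    nlinarith
  by_cases hL : m + k0 ≤ L
  swap
  · apply htriv
    have : (L : ℝ) ≤ m + k0 := by exact_mod_cast (by omega : L ≤ m + k0)
    linarith
  by_cases hbig : (m + k0 + 1) * ((m + 1 + k0) * b) ^ K * b < b ^ (L - (m + k0))
  swap
  · apply htriv
    push Not at hbig
    have hlb0 : 0 < Real.log b := Real.log_pos (by linarith)
    have hb0 : (0 : ℝ) < b := by linarith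
    have h1 : ((b : ℝ) ^ (L - (m + k0))) ≤
        ((m : ℝ) + k0 + 1) * (((m : ℝ) + 1 + k0) * b) ^ K * b := by exact_mod_cast hbig
    have h2 := Real.log_le_log (by positivity) h1
    rw [Real.log_pow, Real.log_mul (by positivity) (by positivity)] at h2
    have h3 : ((L - (m + k0) : ℕ) : ℝ) = L - (m + k0) := by
      rw [Nat.cast_sub hL]; push_cast; ring
    rw [h3] at h2
    have h4 : (L : ℝ) - (m + k0) ≤
        Real.log (((m : ℝ) + k0 + 1) * (((m : ℝ) + 1 + k0) * b) ^ K) / Real.log b + 1 := by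
      rw [← sub_le_iff_le_add, le_div_iff₀ hlb0]
      linarith
    unfold M1
    linarith
  -- truncate
  obtain ⟨a, ha⟩ : ∃ a : ℕ → ℤ, a = fun i => if i < L then s i else 0 := ⟨_, rfl⟩
  have ha1 : ∀ i, i < L → a i = s i := by
    intro i hi
    rw [ha]; simp [hi]
  have ha2 : ∀ i, |a i| ≤ b := by
    intro i
    by_cases hi : i < L
    · rw [ha1 i hi]; exact hs i hi
    · rw [ha]; simp [hi]
  obtain ⟨t, ht0, htd, htH, htr⟩ := Pool.Agent.W928.JL.small 1 (fun _ => a) b (by omega)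
    (fun _ => ha2) m k0 (L - (m + k0)) L K hk0 hK
    (by omega) c (fun _ i hi => by
      rw [ha1 _ hi, hc i hi]
      refine Finset.sum_congr rfl fun l hl => ?_
      rw [mem_range] at hl
      rw [ha1 _ (by omega)])
  obtain ⟨t', htd', htH', htr', ht0'⟩ := Pool.Agent.W639.JL.desc 1 (fun _ => a) b b
    (((m + 1 + k0) * b) ^ K) (m + k0)
    (L - (m + k0)) hb (fun _ => ha2) hbig t htd ht0 htH htr
  have hgap := gap2 Pool.Agent.W45.JL.approx x ε c0 hε hc0 b hb hM m k0 L K a t' htd' htH' hL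
    (htr' 0) ht0'
  exact intervals R hR0 E L (fun u v huv hvL hE' => by
    have h1 := hgap u v hvL (fun i h1 h2 => by
      rw [ha1 i (by omega)]
      refine hdig i (by omega) (fun hi => ?_)
      rcases hE' i hi with h | h <;> omega)
    have h2 : (u : ℝ) ≤ L := by exact_mod_cast huv.trans hvL
    have h3 : ε * u ≤ ε * L := mul_le_mul_of_nonneg_left h2 hε.le
    rw [hR]
    nlinarith) k L le_rfl ((Finset.card_filter_le _ _).trans hE)

/-- **Ridout.**  For algebraic irrational numbers and all bases composed of given primes. -/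
theorem main_alg (α : ℝ) (hα : IsAlgebraic ℚ α) (hirr : Irrational α) (S : Finset ℕ)
    (hS : ∀ ℓ ∈ S, ℓ.Prime) (δ : ℝ) (hδ : 0 < δ) :
    ∃ C : ℝ, 0 ≤ C ∧ ∀ b : ℕ, 2 ≤ b → (∀ ℓ : ℕ, ℓ.Prime → ℓ ∣ b → ℓ ∈ S) →
      ∀ (L m k : ℕ) (s : ℕ → ℤ), (∀ i, |s i| ≤ b) →
      ((Icc 1 L).filter fun i => s i ≠ ⌊α * (b : ℝ) ^ i⌋ % (b : ℤ)).card ≤ k →
      (∃ c : ℕ → ℚ, ∀ i, 1 ≤ i → i + m ≤ L →
        (s (i + m) : ℚ) = ∑ j ∈ range m, c j * (s (i + j) : ℚ)) →
      (L : ℝ) ≤ (k + 1) * (2 * m + δ * L + C) := by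
  obtain ⟨ε, hε⟩ : ∃ ε : ℝ, ε = min 1 (δ / 4) := ⟨_, rfl⟩
  have hε0 : 0 < ε := by rw [hε]; exact lt_min one_pos (by positivity)
  have hε1 : ε ≤ 1 := by rw [hε]; exact min_le_left _ _
  have hε2 : ε ≤ δ / 4 := by rw [hε]; exact min_le_right _ _
  obtain ⟨c0, hc0, hc⟩ := RidM.ridout_meas α hα hirr S hS ε hε0
  obtain ⟨C1, hC1, herr⟩ := err_small (δ / 90) (by positivity)
  refine ⟨45 * C1 + 3 / 2 * |Real.log c0| + 1, by positivity, ?_⟩
  intro b hb hbS L m k s hs hE hrec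
  have hm0 : (0 : ℝ) ≤ m := Nat.cast_nonneg m
  have hk0 : (0 : ℝ) ≤ k := Nat.cast_nonneg k
  have hL0 : (0 : ℝ) ≤ L := Nat.cast_nonneg L
  have hc00 := abs_nonneg (Real.log c0)
  rcases lt_or_ge L m with hLm | hLm
  · have h1 : (L : ℝ) ≤ m := by exact_mod_cast hLm.le
    have h2 : (L : ℝ) ≤ 2 * m + δ * L + (45 * C1 + 3 / 2 * |Real.log c0| + 1) := by
      have : 0 ≤ δ * L := by positivity
      nlinarith
    nlinarith
  obtain ⟨c, hcr⟩ := hrec
  have h := main_two α ε c0 hε0 hc0 b hb (fun q hq u hu p => by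
      have := hc q hq (b ^ u) hu (fun ℓ hℓ hd => hbS ℓ hℓ (hℓ.dvd_of_dvd_pow hd)) p
      push_cast at this
      exact this) L m k (fun i => s (i + 1)) (fun i _ => hs _)
    ⟨((Icc 1 L).filter fun i => s i ≠ ⌊α * (b : ℝ) ^ i⌋ % (b : ℤ)).image (· - 1),
      Finset.card_image_le.trans hE, fun i hi hiE => by
        by_contra hne
        apply hiE
        rw [mem_image]
        exact ⟨i + 1, by
          rw [mem_filter, mem_Icc]
          exact ⟨⟨by omega, by omega⟩, hne⟩, by omega⟩⟩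
    ⟨c, fun i hi => by
      have := hcr (i + 1) (by omega) (by omega)
      rw [show i + m + 1 = i + 1 + m by ring, this]
      refine Finset.sum_congr rfl fun l _ => ?_
      rw [show i + l + 1 = i + 1 + l by ring]⟩
  refine h.trans (mul_le_mul_of_nonneg_left ?_ (by linarith))
  have hmL : (m : ℝ) ≤ L := by exact_mod_cast hLm
  have h1 := herr m
  have h2 : err m ≤ δ / 90 * L + C1 := by
    have := mul_le_mul_of_nonneg_left hmL (by positivity : 0 ≤ δ / 90)
    linarith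
  have he0 := err_ge m
  have h3 : (2 + ε) * (15 * err m) ≤ 45 * (δ / 90 * L + C1) := by nlinarith
  have h4 : ε * m ≤ δ / 4 * L := mul_le_mul hε2 hmL hm0 (by positivity)
  have h5 : ε * L ≤ δ / 4 * L := mul_le_mul_of_nonneg_right hε2 hL0
  nlinarith

end Pool.Agent.TH629.ErrC
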