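import Pool.Agent.TH629.ExpDig

/-!
# Digits of numbers `β e^w` with `β` in a real number field
-/

set_option autoImplicit false

namespace Pool.Agent.TH629.ExpAlg

open Finset Polynomial Module Filter Pool.Agent.W472.AC Pool.Agent.TH629.ExpDig

/-- expansion of the determinant of a linear combination of integer matrices -/
lemma det_expand {d n : ℕ} {R : Type*} [CommRing R] (t : Fin n → R)
    (A : Fin n → Matrix (Fin d) (Fin d) ℤ) :
    Matrix.det (Matrix.of fun r c => ∑ j, t j * ((A j r c : ℤ) : R)) =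
      ∑ f : Fin d → Fin n, (∏ i, t (f i)) *
        ((Matrix.det (Matrix.of fun r c => A (f c) r c) : ℤ) : R) := by
  classical
  rw [Matrix.det_apply']
  have h1 : ∀ σ : Equiv.Perm (Fin d),
      ((Equiv.Perm.sign σ : ℤ) : R) *
        ∏ i, (Matrix.of fun r c => ∑ j, t j * ((A j r c : ℤ) : R)) (σ i) i =
      ∑ f : Fin d → Fin n, (∏ i, t (f i)) *
        (((Equiv.Perm.sign σ : ℤ) : R) * ∏ i, ((A (f i) (σ i) i : ℤ) : R)) := by
    intro σ
    simp only [Matrix.of_apply]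
    rw [Finset.prod_univ_sum, Finset.mul_sum]
    rw [Fintype.piFinset_univ]
    refine Finset.sum_congr rfl fun f _ => ?_
    rw [Finset.prod_mul_distrib]
    ring
  rw [Finset.sum_congr rfl fun σ _ => h1 σ, Finset.sum_comm]
  refine Finset.sum_congr rfl fun f _ => ?_
  rw [← Finset.mul_sum]
  congr 1
  rw [Matrix.det_apply']
  push_cast
  simp only [Matrix.of_apply]

/-- bound for a determinant with one special row -/
lemma det_bound {d : ℕ} (X : Matrix (Fin d) (Fin d) ℝ) (l : Fin d) (V κ : ℝ)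
    (hV : ∀ c, |X l c| ≤ V) (hκ : ∀ r c, r ≠ l → |X r c| ≤ κ) :
    |X.det| ≤ (d.factorial : ℝ) * (V * κ ^ (d - 1)) := by
  classical
  rw [Matrix.det_apply']
  refine (Finset.abs_sum_le_sum_abs _ _).trans ?_
  have h1 : ∀ σ : Equiv.Perm (Fin d),
      |((Equiv.Perm.sign σ : ℤ) : ℝ) * ∏ i, X (σ i) i| ≤ V * κ ^ (d - 1) := by
    intro σ
    rw [abs_mul]
    have h2 : |((Equiv.Perm.sign σ : ℤ) : ℝ)| = 1 := by
      rcases Int.units_eq_one_or (Equiv.Perm.sign σ) with h | h <;> simp [h]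
    rw [h2, one_mul, Finset.abs_prod]
    have h3 : ∏ i, |X (σ i) i| = ∏ r, |X r (σ.symm r)| := by
      rw [← Equiv.prod_comp σ (fun r => |X r (σ.symm r)|)]
      refine Finset.prod_congr rfl fun i _ => ?_
      rw [Equiv.symm_apply_apply]
    rw [h3, ← Finset.mul_prod_erase univ _ (mem_univ l)]
    refine mul_le_mul (hV _) ?_ (Finset.prod_nonneg fun _ _ => abs_nonneg _)
      ((abs_nonneg _).trans (hV l))
    have h4 : ∏ r ∈ univ.erase l, |X r (σ.symm r)| ≤ ∏ _r ∈ univ.erase l, κ :=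
      Finset.prod_le_prod (fun _ _ => abs_nonneg _)
        (fun r hr => hκ r _ (Finset.ne_of_mem_erase hr))
    rw [Finset.prod_const, Finset.card_erase_of_mem (mem_univ l), Finset.card_univ,
      Fintype.card_fin] at h4
    exact h4
  refine (Finset.sum_le_sum fun σ _ => h1 σ).trans ?_
  rw [Finset.sum_const, Finset.card_univ, Fintype.card_perm, Fintype.card_fin, nsmul_eq_mul]

/-- a common denominator -/
lemma common_den {ι : Type*} [Fintype ι] (f : ι → ℚ) :
    ∃ D : ℕ, 0 < D ∧ ∃ z : ι → ℤ, ∀ i, (z i : ℚ) = D * f i := by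
  classical
  refine ⟨∏ i, (f i).den, Finset.prod_pos fun i _ => (f i).pos, ?_⟩
  have h : ∀ i, ∃ z : ℤ, (z : ℚ) = ((∏ i, (f i).den : ℕ) : ℚ) * f i := by
    intro i
    refine ⟨((∏ j ∈ univ.erase i, (f j).den : ℕ) : ℤ) * (f i).num, ?_⟩
    rw [← Finset.mul_prod_erase univ (fun i => (f i).den) (mem_univ i)]
    push_cast
    have h1 : (f i) * ((f i).den : ℚ) = (f i).num := Rat.mul_den_eq_num (f i)
    rw [← h1]
    ring
  choose z hz using h
  exact ⟨z, hz⟩

/-- polynomial of the coefficients: `∑_k n_k x^k` is the determinant of `∑_j a_j x^(w_j) A_j` -/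
lemma det_poly {d m : ℕ} (w : Fin (m + 1) → ℕ) (R : ℕ) (hR : ∀ j, w j ≤ R)
    (A : Fin (m + 1) → Matrix (Fin d) (Fin d) ℤ) :
    ∃ S : ℝ, 1 ≤ S ∧ ∀ a : Fin (m + 1) → ℤ, ∃ N : Fin (d * R + 1) → ℤ,
      (∀ H : ℝ, 1 ≤ H → (∀ j, |(a j : ℝ)| ≤ H) → ∀ k, |(N k : ℝ)| ≤ H ^ d * S) ∧
      ∀ (Q : Type) [CommRing Q] (x : Q),
        Matrix.det (Matrix.of fun r c => ∑ j, ((a j : Q) * x ^ w j) * ((A j r c : ℤ) : Q)) =
          ∑ k, (N k : Q) * x ^ (k : ℕ) := by
  classical
  obtain ⟨cf, hcf⟩ : ∃ cf : (Fin d → Fin (m + 1)) → ℤ,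
      cf = fun f => Matrix.det (Matrix.of fun r c => A (f c) r c) := ⟨_, rfl⟩
  have hW : ∀ f : Fin d → Fin (m + 1), ∑ i, w (f i) < d * R + 1 := by
    intro f
    have h1 : ∑ i, w (f i) ≤ ∑ _i : Fin d, R := Finset.sum_le_sum fun i _ => hR _
    rw [Finset.sum_const, Finset.card_univ, Fintype.card_fin, smul_eq_mul] at h1
    omega
  obtain ⟨g, hg⟩ : ∃ g : (Fin d → Fin (m + 1)) → Fin (d * R + 1),
      g = fun f => ⟨∑ i, w (f i), hW f⟩ := ⟨_, rfl⟩
  refine ⟨1 + ∑ f, |(cf f : ℝ)|, by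
    have : 0 ≤ ∑ f, |(cf f : ℝ)| := Finset.sum_nonneg fun _ _ => abs_nonneg _
    linarith, fun a => ⟨fun k => ∑ f with g f = k, (∏ i, a (f i)) * cf f, ?_, ?_⟩⟩
  · intro H hH haH k
    push_cast
    refine (Finset.abs_sum_le_sum_abs _ _).trans ?_
    have h1 : ∀ f : Fin d → Fin (m + 1), |(∏ i, (a (f i) : ℝ)) * (cf f : ℝ)| ≤
        H ^ d * |(cf f : ℝ)| := by
      intro f
      rw [abs_mul, Finset.abs_prod]
      refine mul_le_mul_of_nonneg_right ?_ (abs_nonneg _)
      have h2 : ∏ i, |(a (f i) : ℝ)| ≤ ∏ _i : Fin d, H :=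
        Finset.prod_le_prod (fun _ _ => abs_nonneg _) fun i _ => haH _
      rwa [Finset.prod_const, Finset.card_univ, Fintype.card_fin] at h2
    calc ∑ f with g f = k, |(∏ i, (a (f i) : ℝ)) * (cf f : ℝ)|
        ≤ ∑ f, |(∏ i, (a (f i) : ℝ)) * (cf f : ℝ)| :=
          Finset.sum_le_sum_of_subset_of_nonneg (Finset.filter_subset _ _)
            fun _ _ _ => abs_nonneg _
      _ ≤ ∑ f, H ^ d * |(cf f : ℝ)| := Finset.sum_le_sum fun f _ => h1 f
      _ = H ^ d * ∑ f, |(cf f : ℝ)| := by rw [Finset.mul_sum]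
      _ ≤ H ^ d * (1 + ∑ f, |(cf f : ℝ)|) := by
          refine mul_le_mul_of_nonneg_left (by linarith) ?_
          have : 0 ≤ H := by linarith
          positivity
  · intro Q _ x
    rw [det_expand]
    have h1 : ∀ k : Fin (d * R + 1), ((∑ f with g f = k, (∏ i, a (f i)) * cf f : ℤ) : Q) *
        x ^ (k : ℕ) = ∑ f with g f = k, (∏ i, ((a (f i) : Q) * x ^ w (f i))) * (cf f : Q) := by
      intro k
      push_cast
      rw [Finset.sum_mul]
      refine Finset.sum_congr rfl fun f hf => ?_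
      rw [Finset.mem_filter] at hf
      rw [← hf.2, hg, Finset.prod_mul_distrib, Finset.prod_pow_eq_pow_sum]
      ring
    rw [Finset.sum_congr rfl fun k _ => h1 k, Finset.sum_fiberwise, hcf]

/-- **Measure of linear independence** for numbers `β e^w` with `β` in a real number field. -/
theorem meas_exp_field (K : IntermediateField ℚ ℝ) [FiniteDimensional ℚ K] {m : ℕ}
    (β : Fin (m + 1) → K) (w : Fin (m + 1) → ℕ) (R : ℕ) (hR : ∀ j, w j ≤ R)
    (hli : LinearIndependent ℚ fun j => (β j : ℝ) * Real.exp (w j)) (η : ℝ) (hη : 0 < η) :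
    ∃ c : ℝ, 0 < c ∧ Meas (fun j => (β j : ℝ) * Real.exp (w j))
      ((finrank ℚ K : ℝ) * (finrank ℚ K * R + 1) - 1 + η) c := by
  classical
  obtain ⟨d, hd⟩ : ∃ d, d = finrank ℚ K := ⟨_, rfl⟩
  rw [← hd]
  have hdpos : 0 < d := by rw [hd]; exact finrank_pos
  have hdR : (1 : ℝ) ≤ d := by exact_mod_cast hdpos
  obtain ⟨b⟩ : Nonempty (Basis (Fin d) ℚ K) := ⟨Module.finBasisOfFinrankEq ℚ K hd.symm⟩
  obtain ⟨D, hD, z, hz⟩ := common_den
    (fun p : Fin (m + 1) × Fin d × Fin d => Algebra.leftMulMatrix b (β p.1) p.2.1 p.2.2)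
  obtain ⟨A, hAz⟩ : ∃ A : Fin (m + 1) → Matrix (Fin d) (Fin d) ℤ,
    A = fun j => Matrix.of fun r c => z (j, r, c) := ⟨_, rfl⟩
  have hA : ∀ j r c, ((A j r c : ℤ) : ℚ) = D * Algebra.leftMulMatrix b (β j) r c := by
    intro j r c
    rw [hAz]
    exact hz (j, r, c)
  obtain ⟨v, hv⟩ : ∃ v : Fin d → ℝ, v = fun i => ((b i : K) : ℝ) := ⟨_, rfl⟩
  have hv0 : ∀ i, v i ≠ 0 := by
    intro i h
    rw [hv] at h
    have h2 : ((b i : K) : ℝ) = 0 := h
    have h1 : b i = 0 := by exact_mod_cast h2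
    exact b.ne_zero i h1
  have heig : ∀ j l, ∑ i, v i * (A j i l : ℝ) = D * (β j : ℝ) * v l := by
    intro j l
    have h1 : β j * b l = ∑ i, Algebra.leftMulMatrix b (β j) i l • b i := by
      rw [← b.sum_repr (β j * b l)]
      refine Finset.sum_congr rfl fun i _ => ?_
      rw [Algebra.leftMulMatrix_eq_repr_mul]
    have h2 : ((β j : K) : ℝ) * ((b l : K) : ℝ) =
        ∑ i, ((Algebra.leftMulMatrix b (β j) i l : ℚ) : ℝ) * ((b i : K) : ℝ) := by
      have h3 : ((β j * b l : K) : ℝ) =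
          ((∑ i, Algebra.leftMulMatrix b (β j) i l • b i : K) : ℝ) := by rw [h1]
      push_cast at h3
      rw [h3]
      refine Finset.sum_congr rfl fun i _ => ?_
      simp [Rat.smul_def]
    have h4 : ∀ i, (A j i l : ℝ) = D * ((Algebra.leftMulMatrix b (β j) i l : ℚ) : ℝ) := by
      intro i
      have := congrArg (fun q : ℚ => (q : ℝ)) (hA j i l)
      simpa using this
    rw [hv]
    simp only []
    rw [mul_assoc, h2, Finset.mul_sum]
    refine Finset.sum_congr rfl fun i _ => ?_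
    rw [h4]
    ring
  obtain ⟨S, hS1, hdet⟩ := det_poly w R hR A
  obtain ⟨S', hS'⟩ : ∃ S' : ℝ, S' = 1 + ∑ j, ∑ r, ∑ c, Real.exp (w j) * |(A j r c : ℝ)| :=
    ⟨_, rfl⟩
  have hS'1 : 1 ≤ S' := by
    rw [hS']
    have : 0 ≤ ∑ j, ∑ r, ∑ c, Real.exp (w j) * |(A j r c : ℝ)| :=
      Finset.sum_nonneg fun _ _ => Finset.sum_nonneg fun _ _ => Finset.sum_nonneg fun _ _ => by
        positivity
    linarith
  obtain ⟨V, hV⟩ : ∃ V : ℝ, V = 1 + ∑ i, |v i| := ⟨_, rfl⟩
  have hV1 : 1 ≤ V := by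
    have : 0 ≤ ∑ i, |v i| := Finset.sum_nonneg fun _ _ => abs_nonneg _
    linarith
  obtain ⟨c, hc, hmeas⟩ := e_meas (d * R) (fun i => ((i : ℕ) : ℤ)) (fun i j hij => by
    apply Fin.ext
    simpa using hij) (by simp) (fun i => by positivity) (η / d) (by positivity)
  obtain ⟨l⟩ : Nonempty (Fin d) := ⟨⟨0, hdpos⟩⟩
  obtain ⟨w', hw'⟩ : ∃ w' : ℝ, w' = ((d * R : ℕ) : ℝ) + η / d := ⟨_, rfl⟩
  rw [← hw'] at hmeas
  have hw0 : 0 < w' := by rw [hw']; positivity
  obtain ⟨Cc, hC⟩ : ∃ Cc : ℝ, Cc = S ^ w' * (D * ((d.factorial : ℝ) * (V * S' ^ (d - 1)))) := ⟨_, rfl⟩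
  have hCpos : 0 < Cc := by
    rw [hC]
    have : (0 : ℝ) < D := by exact_mod_cast hD
    have h2 : 0 < S := by linarith
    have h3 : 0 < S' := by linarith
    have h4 : 0 < V := by linarith
    positivity
  have hvl : 0 < |v l| := abs_pos.2 (hv0 l)
  refine ⟨c * |v l| / Cc, by positivity, fun a ha H hH haH => ?_⟩
  obtain ⟨N, hN1, hN2⟩ := hdet a
  obtain ⟨Λ, hΛ⟩ : ∃ Λ : ℝ, Λ = ∑ j, (a j : ℝ) * ((β j : ℝ) * Real.exp (w j)) := ⟨_, rfl⟩
  have hΛ0 : Λ ≠ 0 := by
    intro h0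
    apply ha
    have h1 := Fintype.linearIndependent_iff.1 hli (fun j => (a j : ℚ)) (by
      rw [← h0, hΛ]
      refine Finset.sum_congr rfl fun j _ => ?_
      rw [Rat.smul_def]
      simp)
    ext j
    have := h1 j
    exact_mod_cast this
  -- the matrix at `e`
  obtain ⟨M, hM⟩ : ∃ M : Matrix (Fin d) (Fin d) ℝ, M = Matrix.of fun r c =>
    ∑ j, ((a j : ℝ) * (Real.exp 1) ^ w j) * ((A j r c : ℤ) : ℝ) := ⟨_, rfl⟩
  have hexp : ∀ k : ℕ, (Real.exp 1) ^ k = Real.exp k := fun k => by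
    rw [← Real.exp_nat_mul, mul_one]
  have hMdet : M.det = ∑ k : Fin (d * R + 1), (N k : ℝ) * Real.exp (((k : ℕ) : ℤ) : ℝ) := by
    rw [hM, hN2 ℝ (Real.exp 1)]
    refine Finset.sum_congr rfl fun k _ => ?_
    rw [hexp]
    simp
  have hrow : ∀ t, ∑ i, v i * M i t = D * Λ * v t := by
    intro t
    rw [hM, hΛ]
    simp only [Matrix.of_apply]
    calc ∑ i, v i * ∑ j, ((a j : ℝ) * (Real.exp 1) ^ w j) * ((A j i t : ℤ) : ℝ)
        = ∑ j, ((a j : ℝ) * (Real.exp 1) ^ w j) * ∑ i, v i * (A j i t : ℝ) := by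
          simp_rw [Finset.mul_sum]
          rw [Finset.sum_comm]
          refine Finset.sum_congr rfl fun j _ => Finset.sum_congr rfl fun i _ => ?_
          ring
      _ = ∑ j, ((a j : ℝ) * (Real.exp 1) ^ w j) * (D * (β j : ℝ) * v t) := by
          refine Finset.sum_congr rfl fun j _ => ?_
          rw [heig]
      _ = _ := by
          rw [Finset.mul_sum, Finset.sum_mul]
          refine Finset.sum_congr rfl fun j _ => ?_
          rw [hexp]
          ring
  have hkey : v l * M.det = D * Λ * (M.updateRow l v).det := by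
    have h1 := Matrix.det_updateRow_sum M l v
    have h2 : (∑ k, v k • M k) = (D * Λ) • v := by
      ext t
      simp only [Finset.sum_apply, Pi.smul_apply, smul_eq_mul]
      exact hrow t
    rw [h2, Matrix.det_updateRow_smul] at h1
    rw [smul_eq_mul] at h1
    exact h1.symm
  have hMb : ∀ r c, |M r c| ≤ H * S' := by
    intro r c
    rw [hM]
    simp only [Matrix.of_apply]
    refine (Finset.abs_sum_le_sum_abs _ _).trans ?_
    have h1 : ∀ j, |((a j : ℝ) * (Real.exp 1) ^ w j) * ((A j r c : ℤ) : ℝ)| ≤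
        H * (Real.exp (w j) * |(A j r c : ℝ)|) := by
      intro j
      rw [abs_mul, abs_mul, hexp, abs_of_pos (Real.exp_pos _), mul_assoc]
      exact mul_le_mul_of_nonneg_right (haH j) (by positivity)
    refine (Finset.sum_le_sum fun j _ => h1 j).trans ?_
    rw [← Finset.mul_sum]
    refine mul_le_mul_of_nonneg_left ?_ (by linarith)
    rw [hS']
    have h2 : ∑ j, Real.exp (w j) * |(A j r c : ℝ)| ≤
        ∑ j, ∑ r, ∑ c, Real.exp (w j) * |(A j r c : ℝ)| := by
      refine Finset.sum_le_sum fun j _ => ?_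
      have h3 : Real.exp (w j) * |(A j r c : ℝ)| ≤ ∑ c, Real.exp (w j) * |(A j r c : ℝ)| :=
        Finset.single_le_sum (f := fun c => Real.exp (w j) * |(A j r c : ℝ)|)
          (fun _ _ => by positivity) (mem_univ c)
      have h4 : ∑ c, Real.exp (w j) * |(A j r c : ℝ)| ≤
          ∑ r, ∑ c, Real.exp (w j) * |(A j r c : ℝ)| :=
        Finset.single_le_sum (f := fun r => ∑ c, Real.exp (w j) * |(A j r c : ℝ)|)
          (fun _ _ => Finset.sum_nonneg fun _ _ => by positivity) (mem_univ r)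
      exact h3.trans h4
    linarith
  have hbd : |(M.updateRow l v).det| ≤ (d.factorial : ℝ) * (V * (H * S') ^ (d - 1)) := by
    refine det_bound _ l V (H * S') (fun c => ?_) (fun r c hr => ?_)
    · rw [Matrix.updateRow_self, hV]
      have := Finset.single_le_sum (f := fun i => |v i|) (fun _ _ => abs_nonneg _) (mem_univ c)
      linarith
    · rw [Matrix.updateRow_ne hr]
      exact hMb r c
  -- the polynomial is not zero
  have hN0 : N ≠ 0 := by
    intro h0
    have hroot : ∀ x : ℕ, ∑ j, ((a j : K) * β j) * (x : K) ^ w j = 0 := by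
      intro x
      have h1 := hN2 ℚ (x : ℚ)
      rw [h0] at h1
      simp only [Pi.zero_apply, Int.cast_zero, zero_mul, Finset.sum_const_zero] at h1
      have h2 : (Matrix.of fun r c => ∑ j, ((a j : ℚ) * (x : ℚ) ^ w j) * ((A j r c : ℤ) : ℚ)) =
          (D : ℚ) • Algebra.leftMulMatrix b (∑ j, ((a j : K) * β j) * (x : K) ^ w j) := by
        have h3 : (∑ j, ((a j : K) * β j) * (x : K) ^ w j) =
            ∑ j, ((a j : ℚ) * (x : ℚ) ^ w j) • β j := by
          refine Finset.sum_congr rfl fun j _ => ?_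
          rw [Algebra.smul_def]
          push_cast
          simp
          ring
        rw [h3, map_sum]
        ext r c
        simp only [map_smul, Matrix.of_apply, Matrix.smul_apply, Matrix.sum_apply, smul_eq_mul]
        rw [Finset.mul_sum]
        refine Finset.sum_congr rfl fun j _ => ?_
        rw [hA]
        ring
      rw [h2, Matrix.det_smul, ← Algebra.norm_eq_matrix_det] at h1
      have h4 : ((D : ℚ)) ^ Fintype.card (Fin d) ≠ 0 := by
        have : (D : ℚ) ≠ 0 := by exact_mod_cast hD.ne'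
        positivity
      have h5 := (mul_eq_zero.1 h1).resolve_left h4
      by_contra hne
      exact (Algebra.norm_ne_zero_iff.2 hne) h5
    obtain ⟨p, hp⟩ : ∃ p : K[X], p = ∑ j, C ((a j : K) * β j) * X ^ w j := ⟨_, rfl⟩
    have hp0 : p = 0 := by
      refine Polynomial.eq_zero_of_infinite_isRoot p ?_
      refine Set.infinite_of_injective_forall_mem (f := fun x : ℕ => (x : K)) Nat.cast_injective
        fun x => ?_
      show p.IsRoot (x : K)
      rw [IsRoot.def, hp, eval_finsetSum]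
      simp only [eval_mul, eval_C, eval_pow, eval_X]
      exact hroot x
    apply hΛ0
    have h6 : p.eval₂ (algebraMap K ℝ) (Real.exp 1) = Λ := by
      rw [hp, eval₂_finsetSum, hΛ]
      refine Finset.sum_congr rfl fun j _ => ?_
      rw [eval₂_mul, eval₂_C, eval₂_pow, eval₂_X, hexp, map_mul]
      simp
      ring
    rw [← h6, hp0, eval₂_zero]
  -- conclusion
  have hH0 : 0 < H := by linarith
  have hHS : 1 ≤ H ^ d * S := by
    have : 1 ≤ H ^ d := one_le_pow₀ hH
    nlinarith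
  have h1 := hmeas N hN0 (H ^ d * S) hHS (hN1 H hH haH)
  rw [← hMdet] at h1
  have h2 : |v l| * |M.det| ≤ D * |Λ| * ((d.factorial : ℝ) * (V * (H * S') ^ (d - 1))) := by
    rw [← abs_mul, hkey, abs_mul, abs_mul]
    have : |(D : ℝ)| = D := abs_of_nonneg (Nat.cast_nonneg D)
    rw [this]
    exact mul_le_mul_of_nonneg_left hbd (by positivity)
  have hexpo : (H ^ d) ^ w' * H ^ (d - 1) = H ^ ((d : ℝ) * (d * R + 1) - 1 + η) := by
    rw [← Real.rpow_natCast H d, ← Real.rpow_mul hH0.le, ← Real.rpow_natCast H (d - 1),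
      ← Real.rpow_add hH0]
    congr 1
    rw [hw', Nat.cast_sub (by omega)]
    push_cast
    field_simp
    ring
  rw [div_le_iff₀ hCpos]
  have hSpos : 0 < S := by linarith
  have hHd : (0 : ℝ) ≤ H ^ d := by positivity
  calc c * |v l| ≤ ((H ^ d * S) ^ w' * |M.det|) * |v l| :=
        mul_le_mul_of_nonneg_right h1 hvl.le
    _ = (H ^ d * S) ^ w' * (|v l| * |M.det|) := by ring
    _ ≤ (H ^ d * S) ^ w' * (D * |Λ| * ((d.factorial : ℝ) * (V * (H * S') ^ (d - 1)))) := by
        refine mul_le_mul_of_nonneg_left h2 ?_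
        positivity
    _ = ((H ^ d) ^ w' * H ^ (d - 1)) * |Λ| *
          (S ^ w' * (D * ((d.factorial : ℝ) * (V * S' ^ (d - 1))))) := by
        rw [Real.mul_rpow hHd hSpos.le, mul_pow]
        ring
    _ = H ^ ((d : ℝ) * (d * R + 1) - 1 + η) * |Λ| * Cc := by rw [hexpo, hC]
    _ = H ^ ((d : ℝ) * (d * R + 1) - 1 + η) * |∑ j, (a j : ℝ) * ((β j : ℝ) * Real.exp (w j))| * Cc := by
        rw [hΛ]

end Pool.Agent.TH629.ExpAlg
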