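import Pool.Agent.TH629.ExpAlg

/-!
# Joint digits of numbers `α e^k`, `α` algebraic: conclusion, and the example of `e`, `√2`, `φ`
-/

set_option autoImplicit false

namespace Pool.Agent.TH629.ExpAlg

open Finset Polynomial Module Filter Pool.Agent.W472.AC Pool.Agent.TH629.ExpDig

/-- **Joint digits of numbers `α e^k`.** -/
theorem main (K : IntermediateField ℚ ℝ) [FiniteDimensional ℚ K] {n m : ℕ} (α : Fin n → K)
    (k : Fin n → ℕ) (E : Fin (m + 1) → Fin n → ℕ)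
    (hdown : ∀ j, ∀ a : Fin n → ℕ, a ≤ E j → ∃ j', E j' = a)
    (R : ℕ) (hR : ∀ j, ∑ i, k i * E j i ≤ R)
    (hli : LinearIndependent ℚ fun j => ∏ i, ((α i : ℝ) * Real.exp (k i)) ^ E j i)
    (ε : ℝ) (hε : 0 < ε) :
    ∃ L₀ : ℕ, ∀ L : ℕ, L₀ ≤ L → ∀ b : ℕ, 2 ≤ b →
      (1 / ((finrank ℚ K : ℝ) * (finrank ℚ K * R + 1)) - ε) * L <
        monComplexity b (fun i => (α i : ℝ) * Real.exp (k i)) E L ∧
      (monComplexity b (fun i => (α i : ℝ) * Real.exp (k i)) E L : ℝ) <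
        (1 / ((m : ℝ) + 1) + ε) * L := by
  obtain ⟨x, hx⟩ : ∃ x : Fin n → ℝ, x = fun i => (α i : ℝ) * Real.exp (k i) := ⟨_, rfl⟩
  rw [← hx]
  have hli' : LinearIndependent ℚ fun j => ∏ i, x i ^ E j i := by rw [hx]; exact hli
  have hE : Function.Injective E := by
    intro j j' h
    apply hli'.injective
    simp only [h]
  obtain ⟨d, hd⟩ : ∃ d, d = finrank ℚ K := ⟨_, rfl⟩
  rw [← hd]
  have hdpos : 0 < d := by rw [hd]; exact finrank_pos
  have hdR : (1 : ℝ) ≤ d := by exact_mod_cast hdpos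
  have hmono : ∀ j, ∏ i, x i ^ E j i =
      (((∏ i, α i ^ E j i : K) : ℝ)) * Real.exp ((∑ i, k i * E j i : ℕ) : ℝ) := by
    intro j
    rw [hx]
    push_cast
    rw [Real.exp_sum, ← Finset.prod_mul_distrib]
    refine Finset.prod_congr rfl fun i _ => ?_
    rw [mul_pow, ← Real.exp_nat_mul, mul_comm ((E j i : ℕ) : ℝ)]
  have hmeas : ∀ η : ℝ, 0 < η → ∃ c : ℝ, 0 < c ∧
      Meas (fun j => ∏ i, Int.fract (x i) ^ E j i) ((d : ℝ) * (d * R + 1) - 1 + η) c := by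
    intro η hη
    have hli2 : LinearIndependent ℚ fun j => (((∏ i, α i ^ E j i : K) : ℝ)) *
        Real.exp ((∑ i, k i * E j i : ℕ) : ℝ) := by
      have : (fun j => (((∏ i, α i ^ E j i : K) : ℝ)) * Real.exp ((∑ i, k i * E j i : ℕ) : ℝ)) =
          fun j => ∏ i, x i ^ E j i := by
        ext j
        exact (hmono j).symm
      rw [this]
      exact hli'
    obtain ⟨c, hc, h⟩ := meas_exp_field K (fun j => ∏ i, α i ^ E j i)
      (fun j => ∑ i, k i * E j i) R hR hli2 η hη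
    rw [← hd] at h
    refine meas_transfer _ _ (fun j j' => T (fun i => ⌊x i⌋) (E j) (E j'))
      (fun j => ?_) (fun a ha => nonzero_tri _ E hE a ha) _ c hc h
    have h1 := expand_family (fun i => ⌊x i⌋) x E hE hdown j
    simp_rw [hmono] at h1
    exact h1
  have hdr : (0 : ℝ) < (d : ℝ) * (d * R + 1) := by positivity
  have hge : (1 : ℝ) ≤ (d : ℝ) * (d * R + 1) := by
    have : (0 : ℝ) ≤ (d : ℝ) * R := by positivity
    nlinarith
  have h0 := two_sided_of (fun b L q => MonRelation b x E L q) m ((d : ℝ) * (d * R + 1) - 1)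
    (by linarith) (fun b L q h => monRelation_of_lt b x E L q h)
    (fun θ hθ0 hθ => by
      obtain ⟨η, hη, h1⟩ : ∃ η : ℝ, 0 < η ∧ θ * (1 + ((d : ℝ) * (d * R + 1) - 1 + η)) < 1 := by
        have h2 : 0 < 1 - θ * ((d : ℝ) * (d * R + 1)) := by
          have e : 1 + ((d : ℝ) * (d * R + 1) - 1) = (d : ℝ) * (d * R + 1) := by ring
          rw [e] at hθ
          linarith
        refine ⟨(1 - θ * ((d : ℝ) * (d * R + 1))) / (2 * (θ + 1)), by positivity, ?_⟩
        have h3 : θ * ((1 - θ * ((d : ℝ) * (d * R + 1))) / (2 * (θ + 1))) <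
            1 - θ * ((d : ℝ) * (d * R + 1)) := by
          rw [← mul_div_assoc, div_lt_iff₀ (by positivity)]
          nlinarith
        have e : θ * (1 + ((d : ℝ) * (d * R + 1) - 1 +
            (1 - θ * ((d : ℝ) * (d * R + 1))) / (2 * (θ + 1)))) =
            θ * ((d : ℝ) * (d * R + 1)) +
              θ * ((1 - θ * ((d : ℝ) * (d * R + 1))) / (2 * (θ + 1))) := by ring
        rw [e]
        linarith
      obtain ⟨c, hc, h⟩ := hmeas η hη
      exact mon_lower x E _ c (by linarith) hc h θ hθ0 h1) ε hε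
  have e : (d : ℝ) * (d * R + 1) - 1 + 1 = (d : ℝ) * (d * R + 1) := by ring
  rw [e] at h0
  exact h0

/-! ### the example -/

lemma exp_one_transcendental : Transcendental ℚ (Real.exp 1) := by
  have h : Transcendental ℤ (Real.exp 1) := by
    intro halg
    obtain ⟨P, hP, hP0⟩ := halg
    obtain ⟨c, hc, h⟩ := e_measP P.natDegree 1 one_pos
    obtain ⟨H, hH⟩ : ∃ H : ℝ, H = 1 + ∑ i ∈ P.support, |(P.coeff i : ℝ)| := ⟨_, rfl⟩
    have hsum : 0 ≤ ∑ i ∈ P.support, |(P.coeff i : ℝ)| :=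
      Finset.sum_nonneg fun _ _ => abs_nonneg _
    have h1 := h P hP le_rfl H (by linarith) (fun i => by
      by_cases hi : i ∈ P.support
      · have := Finset.single_le_sum (f := fun i => |(P.coeff i : ℝ)|)
          (fun _ _ => abs_nonneg _) hi
        linarith
      · rw [notMem_support_iff.1 hi]
        simp
        linarith)
    rw [hP0, abs_zero, mul_zero] at h1
    linarith
  intro halg
  exact h ((IsFractionRing.isAlgebraic_iff ℤ ℚ ℝ).2 halg)

lemma sq_ne_five (u : ℚ) : u ^ 2 ≠ 5 := by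
  intro h
  have h1 : Irrational (√5) := by norm_num
  apply h1
  refine ⟨|u|, ?_⟩
  push_cast
  rw [← Real.sqrt_sq_eq_abs]
  congr 1
  exact_mod_cast h

lemma sq_ne_ten (u : ℚ) : u ^ 2 ≠ 10 := by
  intro h
  have h1 : Irrational (√10) := by norm_num
  apply h1
  refine ⟨|u|, ?_⟩
  push_cast
  rw [← Real.sqrt_sq_eq_abs]
  congr 1
  exact_mod_cast h

lemma two_indep (p q : ℚ) (h : (p : ℝ) + q * √2 = 0) : p = 0 ∧ q = 0 := by
  have hq : q = 0 := by
    by_contra hq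
    have hqR : (q : ℝ) ≠ 0 := by exact_mod_cast hq
    apply irrational_sqrt_two
    refine ⟨-p / q, ?_⟩
    push_cast
    rw [div_eq_iff hqR]
    linarith
  subst hq
  refine ⟨?_, rfl⟩
  have : (p : ℝ) = 0 := by simpa using h
  exact_mod_cast this

lemma four_indep' (A B C D : ℚ) (h : (A : ℝ) + C * √2 + (B + D * √2) * √5 = 0) :
    A = 0 ∧ B = 0 ∧ C = 0 ∧ D = 0 := by
  have h2 : √2 * √2 = 2 := Real.mul_self_sqrt (by norm_num)
  have h5 : √5 * √5 = 5 := Real.mul_self_sqrt (by norm_num)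
  by_cases hBD : B = 0 ∧ D = 0
  · obtain ⟨rfl, rfl⟩ := hBD
    have h1 := two_indep A C (by simpa using h)
    exact ⟨h1.1, rfl, h1.2, rfl⟩
  · exfalso
    have hN : B ^ 2 - 2 * D ^ 2 ≠ 0 := by
      intro h0
      by_cases hD : D = 0
      · subst hD
        apply hBD
        refine ⟨?_, rfl⟩
        have : B ^ 2 = 0 := by linarith
        exact pow_eq_zero_iff (two_ne_zero) |>.1 this
      · apply irrational_sqrt_two
        refine ⟨|B / D|, ?_⟩
        push_cast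
        rw [← Real.sqrt_sq_eq_abs]
        congr 1
        rw [div_pow, div_eq_iff (by exact_mod_cast pow_ne_zero 2 hD)]
        have : B ^ 2 = 2 * D ^ 2 := by linarith
        exact_mod_cast this
    obtain ⟨P, hP⟩ : ∃ P : ℚ, P = A * B - 2 * C * D := ⟨_, rfl⟩
    obtain ⟨Q, hQ⟩ : ∃ Q : ℚ, Q = C * B - A * D := ⟨_, rfl⟩
    obtain ⟨N, hN'⟩ : ∃ N : ℚ, N = B ^ 2 - 2 * D ^ 2 := ⟨_, rfl⟩
    rw [← hN'] at hN
    have h3 : (P : ℝ) + Q * √2 = -N * √5 := by
      have e : ((A : ℝ) + C * √2 + (B + D * √2) * √5) * (B - D * √2) = 0 := by rw [h, zero_mul]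
      rw [hP, hQ, hN']
      push_cast
      linear_combination e + (C * D + D ^ 2 * √5) * h2
    have h4 : ((P ^ 2 + 2 * Q ^ 2 - 5 * N ^ 2 : ℚ) : ℝ) + ((2 * P * Q : ℚ) : ℝ) * √2 = 0 := by
      push_cast
      linear_combination ((P : ℝ) + Q * √2 - N * √5) * h3 - (Q : ℝ) ^ 2 * h2 + (N : ℝ) ^ 2 * h5
    obtain ⟨h6, h7⟩ := two_indep _ _ h4
    have h8 : P = 0 ∨ Q = 0 := by
      rcases mul_eq_zero.1 h7 with h9 | h9
      · left
        linarith
      · right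
        exact h9
    rcases h8 with h9 | h9
    · rw [h9] at h6
      apply sq_ne_ten (2 * Q / N)
      rw [div_pow, div_eq_iff (pow_ne_zero 2 hN)]
      linarith
    · rw [h9] at h6
      apply sq_ne_five (P / N)
      rw [div_pow, div_eq_iff (pow_ne_zero 2 hN)]
      linarith

lemma four_indep (q : Fin 4 → ℚ) (h : (q 0 : ℝ) + q 1 * Real.goldenRatio + q 2 * √2 +
    q 3 * (√2 * Real.goldenRatio) = 0) : ∀ i, q i = 0 := by
  have h1 := four_indep' (q 0 + q 1 / 2) (q 1 / 2) (q 2 + q 3 / 2) (q 3 / 2) (by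
    push_cast
    rw [← h, Real.goldenRatio]
    ring)
  obtain ⟨a, b, c, d⟩ := h1
  have h3 : q 3 = 0 := by linarith
  have h1 : q 1 = 0 := by linarith
  have h2 : q 2 = 0 := by linarith
  have h0 : q 0 = 0 := by linarith
  intro i
  fin_cases i <;> assumption

lemma finrank_sqrt_le (n : ℕ) : IsIntegral ℚ (√(n : ℝ)) ∧
    finrank ℚ (IntermediateField.adjoin ℚ {(√(n : ℝ) : ℝ)}) ≤ 2 := by
  have h0 : √(n : ℝ) ^ 2 = n := Real.sq_sqrt (Nat.cast_nonneg n)
  have hmon : (X ^ 2 - C (n : ℚ) : ℚ[X]).Monic := by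
    apply monic_X_pow_sub_C
    norm_num
  have hroot : aeval (√(n : ℝ)) (X ^ 2 - C (n : ℚ) : ℚ[X]) = 0 := by
    simp [h0]
  have hint : IsIntegral ℚ (√(n : ℝ)) := ⟨_, hmon, hroot⟩
  refine ⟨hint, ?_⟩
  rw [IntermediateField.adjoin.finrank hint]
  refine (natDegree_le_of_dvd (minpoly.dvd _ _ hroot) hmon.ne_zero).trans ?_
  rw [natDegree_X_pow_sub_C]

/-- exponents of the monomials: `e ^ (t / 4) * √2 ^ (t / 2 % 2) * φ ^ (t % 2)` -/
def E3 (r : ℕ) (t : Fin (4 * r + 3 + 1)) : Fin 3 → ℕ := ![(t : ℕ) / 4, (t : ℕ) / 2 % 2, (t : ℕ) % 2]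

lemma E3_down (r : ℕ) (j : Fin (4 * r + 3 + 1)) (a : Fin 3 → ℕ) (ha : a ≤ E3 r j) :
    ∃ j', E3 r j' = a := by
  have h0 : a 0 ≤ (j : ℕ) / 4 := ha 0
  have h1 : a 1 ≤ (j : ℕ) / 2 % 2 := ha 1
  have h2 : a 2 ≤ (j : ℕ) % 2 := ha 2
  have hj := j.2
  refine ⟨⟨4 * a 0 + 2 * a 1 + a 2, by omega⟩, ?_⟩
  ext i
  unfold E3
  fin_cases i
  · show (4 * a 0 + 2 * a 1 + a 2) / 4 = a 0
    omega
  · show (4 * a 0 + 2 * a 1 + a 2) / 2 % 2 = a 1
    omega
  · show (4 * a 0 + 2 * a 1 + a 2) % 2 = a 2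
    omega

theorem main_example (r : ℕ) (ε : ℝ) (hε : 0 < ε) :
    ∃ L₀ : ℕ, ∀ L : ℕ, L₀ ≤ L → ∀ b : ℕ, 2 ≤ b →
      (1 / (4 * (4 * (r : ℝ) + 1)) - ε) * L <
        monComplexity b ![Real.exp 1, √2, Real.goldenRatio] (E3 r) L := by
  classical
  obtain ⟨i2, f2⟩ := finrank_sqrt_le 2
  obtain ⟨i5, f5⟩ := finrank_sqrt_le 5
  push_cast at i2 f2 i5 f5
  have hfd2 : FiniteDimensional ℚ (IntermediateField.adjoin ℚ {(√2 : ℝ)}) :=
    IntermediateField.adjoin.finiteDimensional i2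
  have hfd5 : FiniteDimensional ℚ (IntermediateField.adjoin ℚ {(√5 : ℝ)}) :=
    IntermediateField.adjoin.finiteDimensional i5
  obtain ⟨K, hK⟩ : ∃ K : IntermediateField ℚ ℝ, K = IntermediateField.adjoin ℚ {(√2 : ℝ)} ⊔
    IntermediateField.adjoin ℚ {(√5 : ℝ)} := ⟨_, rfl⟩
  have hfd : FiniteDimensional ℚ K := by
    rw [hK]
    exact IntermediateField.finiteDimensional_sup _ _
  have hfr : finrank ℚ K ≤ 4 := by
    rw [hK]
    refine (IntermediateField.finrank_sup_le _ _).trans ?_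
    calc _ ≤ 2 * 2 := Nat.mul_le_mul f2 f5
      _ = 4 := rfl
  have hm2 : (√2 : ℝ) ∈ K := by
    rw [hK]
    exact (le_sup_left : IntermediateField.adjoin ℚ {(√2 : ℝ)} ≤ _)
      (IntermediateField.mem_adjoin_simple_self ℚ _)
  have hm5 : (√5 : ℝ) ∈ K := by
    rw [hK]
    exact (le_sup_right : IntermediateField.adjoin ℚ {(√5 : ℝ)} ≤ _)
      (IntermediateField.mem_adjoin_simple_self ℚ _)
  have hmφ : Real.goldenRatio ∈ K := by
    unfold Real.goldenRatio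
    have h2 : (2 : ℝ) ∈ K := ofNat_mem K 2
    exact div_mem (add_mem (one_mem K) hm5) h2
  obtain ⟨α, hα⟩ : ∃ α : Fin 3 → K, α = ![1, ⟨√2, hm2⟩, ⟨Real.goldenRatio, hmφ⟩] := ⟨_, rfl⟩
  obtain ⟨k, hk⟩ : ∃ k : Fin 3 → ℕ, k = ![1, 0, 0] := ⟨_, rfl⟩
  have hx : (fun i => (α i : ℝ) * Real.exp (k i)) = ![Real.exp 1, √2, Real.goldenRatio] := by
    rw [hα, hk]
    ext i
    fin_cases i <;> simp
  have hmon : ∀ t : Fin (4 * r + 3 + 1), ∏ i, ((α i : ℝ) * Real.exp (k i)) ^ E3 r t i =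
      Real.exp 1 ^ ((t : ℕ) / 4) * (√2 ^ ((t : ℕ) / 2 % 2) * Real.goldenRatio ^ ((t : ℕ) % 2)) := by
    intro t
    have h1 : ∀ i, (α i : ℝ) * Real.exp (k i) = ![Real.exp 1, √2, Real.goldenRatio] i :=
      fun i => congrFun hx i
    simp_rw [h1]
    rw [Fin.prod_univ_three]
    unfold E3
    show Real.exp 1 ^ ((t : ℕ) / 4) * √2 ^ ((t : ℕ) / 2 % 2) * Real.goldenRatio ^ ((t : ℕ) % 2) = _
    ring
  have hli : LinearIndependent ℚ fun j => ∏ i, ((α i : ℝ) * Real.exp (k i)) ^ E3 r j i := by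
    rw [Fintype.linearIndependent_iff]
    intro g hg
    simp_rw [hmon] at hg
    let σ : Fin (r + 1) × Fin 4 ≃ Fin (4 * r + 3 + 1) :=
      finProdFinEquiv.trans (finCongr (by ring))
    have hσ : ∀ p : Fin (r + 1) × Fin 4, ((σ p : Fin (4 * r + 3 + 1)) : ℕ) =
        (p.2 : ℕ) + 4 * (p.1 : ℕ) := by
      intro p
      simp [σ]
    obtain ⟨γ, hγ⟩ : ∃ γ : Fin (r + 1) → K, γ = fun i =>
      algebraMap ℚ K (g (σ (i, 0))) + algebraMap ℚ K (g (σ (i, 1))) * ⟨Real.goldenRatio, hmφ⟩ +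
        algebraMap ℚ K (g (σ (i, 2))) * ⟨√2, hm2⟩ +
        algebraMap ℚ K (g (σ (i, 3))) * (⟨√2, hm2⟩ * ⟨Real.goldenRatio, hmφ⟩) := ⟨_, rfl⟩
    have hγR : ∀ i, ((γ i : K) : ℝ) = (g (σ (i, 0)) : ℝ) + g (σ (i, 1)) * Real.goldenRatio +
        g (σ (i, 2)) * √2 + g (σ (i, 3)) * (√2 * Real.goldenRatio) := by
      intro i
      rw [hγ]
      push_cast
      simp
    have hsum : ∑ i : Fin (r + 1), ((γ i : K) : ℝ) * Real.exp 1 ^ (i : ℕ) = 0 := by
      rw [← hg, ← Equiv.sum_comp σ, Fintype.sum_prod_type]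
      refine Finset.sum_congr rfl fun i _ => ?_
      rw [hγR, Fin.sum_univ_four]
      simp only [hσ, Rat.smul_def]
      have e0 : ((0 : Fin 4) : ℕ) = 0 := rfl
      have e1 : ((1 : Fin 4) : ℕ) = 1 := rfl
      have e2 : ((2 : Fin 4) : ℕ) = 2 := rfl
      have e3 : ((3 : Fin 4) : ℕ) = 3 := rfl
      rw [e0, e1, e2, e3]
      have a0 : (0 + 4 * (i : ℕ)) / 4 = i := by omega
      have a1 : (1 + 4 * (i : ℕ)) / 4 = i := by omega
      have a2 : (2 + 4 * (i : ℕ)) / 4 = i := by omega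
      have a3 : (3 + 4 * (i : ℕ)) / 4 = i := by omega
      have b0 : (0 + 4 * (i : ℕ)) / 2 % 2 = 0 := by omega
      have b1 : (1 + 4 * (i : ℕ)) / 2 % 2 = 0 := by omega
      have b2 : (2 + 4 * (i : ℕ)) / 2 % 2 = 1 := by omega
      have b3 : (3 + 4 * (i : ℕ)) / 2 % 2 = 1 := by omega
      have c0 : (0 + 4 * (i : ℕ)) % 2 = 0 := by omega
      have c1 : (1 + 4 * (i : ℕ)) % 2 = 1 := by omega
      have c2 : (2 + 4 * (i : ℕ)) % 2 = 0 := by omega
      have c3 : (3 + 4 * (i : ℕ)) % 2 = 1 := by omega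
      rw [a0, a1, a2, a3, b0, b1, b2, b3, c0, c1, c2, c3]
      ring
    have hγ0 : ∀ i, γ i = 0 := by
      obtain ⟨p, hp⟩ : ∃ p : K[X], p = ∑ i : Fin (r + 1), C (γ i) * X ^ (i : ℕ) := ⟨_, rfl⟩
      have hp0 : p = 0 := by
        by_contra hne
        have halg : IsAlgebraic K (Real.exp 1) := by
          refine ⟨p, hne, ?_⟩
          rw [hp, map_sum]
          simp only [map_mul, aeval_C, map_pow, aeval_X]
          exact hsum
        exact exp_one_transcendental (halg.restrictScalars ℚ)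
      intro i
      have h1 : p.coeff (i : ℕ) = γ i := by
        rw [hp, finsetSum_coeff]
        simp only [coeff_C_mul, coeff_X_pow]
        rw [Finset.sum_eq_single i]
        · simp
        · intro j _ hj
          have : (i : ℕ) ≠ (j : ℕ) := fun h => hj (Fin.ext h.symm)
          simp [this]
        · intro h
          exact absurd (mem_univ i) h
      rw [← h1, hp0, coeff_zero]
    intro t
    obtain ⟨⟨i, s⟩, rfl⟩ := σ.surjective t
    have h1 := hγR i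
    rw [hγ0 i] at h1
    have h2 := four_indep (fun s => g (σ (i, s))) (by
      rw [← h1]
      simp)
    exact h2 s
  obtain ⟨L₀, h⟩ := main K α k (E3 r) (E3_down r) r (fun j => by
    rw [hk, Fin.sum_univ_three]
    unfold E3
    show 1 * ((j : ℕ) / 4) + 0 * _ + 0 * _ ≤ r
    have := j.2
    omega) hli ε hε
  refine ⟨L₀, fun L hL b hb => ?_⟩
  have h1 := (h L hL b hb).1
  rw [hx] at h1
  refine lt_of_le_of_lt ?_ h1
  refine mul_le_mul_of_nonneg_right ?_ (Nat.cast_nonneg L)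
  have hd4 : (finrank ℚ K : ℝ) ≤ 4 := by exact_mod_cast hfr
  have hd1 : (1 : ℝ) ≤ finrank ℚ K := by exact_mod_cast (finrank_pos : 0 < finrank ℚ K)
  have hr0 : (0 : ℝ) ≤ r := Nat.cast_nonneg r
  have h3 : (finrank ℚ K : ℝ) * (finrank ℚ K * r + 1) ≤ 4 * (4 * (r : ℝ) + 1) := by
    have : (finrank ℚ K : ℝ) * r ≤ 4 * r := mul_le_mul_of_nonneg_right hd4 hr0
    nlinarith [mul_nonneg (by linarith : (0 : ℝ) ≤ finrank ℚ K) hr0]
  have h4 : 1 / (4 * (4 * (r : ℝ) + 1)) ≤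
      1 / ((finrank ℚ K : ℝ) * (finrank ℚ K * r + 1)) := by
    apply one_div_le_one_div_of_le _ h3
    positivity
  linarith

end Pool.Agent.TH629.ExpAlg
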