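import Pool.Agent.W472.AC.Mono
import Pool.Agent.W472.AC.EMeas2

/-!
# Digits of integer powers of `e`: relations between monomials in the digit polynomials
-/

set_option autoImplicit false

namespace Pool.Agent.TH629.ExpDig

open Finset Polynomial Module Filter Pool.Agent.W472.AC

/-- coefficients of the expansion of a monomial in `x_i - N_i` -/
def T {n : ℕ} (N : Fin n → ℤ) (e a : Fin n → ℕ) : ℤ :=
  ∏ i, ((Nat.choose (e i) (a i) : ℤ) * (- N i) ^ (e i - a i))

lemma expand {n : ℕ} (N : Fin n → ℤ) (x : Fin n → ℝ) (e : Fin n → ℕ) :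
    ∏ i, (x i - N i) ^ (e i) =
      ∑ a ∈ Fintype.piFinset (fun i => range (e i + 1)), (T N e a : ℝ) * ∏ i, x i ^ a i := by
  have h : ∀ i, (x i - N i) ^ (e i) =
      ∑ a ∈ range (e i + 1), (((Nat.choose (e i) a : ℝ) * (-(N i : ℝ)) ^ (e i - a)) * x i ^ a) := by
    intro i
    rw [sub_eq_add_neg, add_pow]
    refine Finset.sum_congr rfl fun a _ => ?_
    ring
  simp_rw [h]
  rw [Finset.prod_univ_sum]
  refine Finset.sum_congr rfl fun a _ => ?_
  rw [Finset.prod_mul_distrib]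
  congr 1
  unfold T
  push_cast
  rfl

lemma T_eq_zero {n : ℕ} (N : Fin n → ℤ) (e a : Fin n → ℕ) (h : ¬ a ≤ e) : T N e a = 0 := by
  rw [Pi.le_def] at h
  push Not at h
  obtain ⟨i, hi⟩ := h
  unfold T
  refine Finset.prod_eq_zero (Finset.mem_univ i) ?_
  rw [Nat.choose_eq_zero_of_lt hi]
  simp

lemma T_self {n : ℕ} (N : Fin n → ℤ) (e : Fin n → ℕ) : T N e e = 1 := by
  unfold T
  simp

/-- the expansion in terms of a divisor-closed family of monomials -/
lemma expand_family {n m : ℕ} (N : Fin n → ℤ) (x : Fin n → ℝ) (E : Fin (m + 1) → Fin n → ℕ)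
    (hE : Function.Injective E) (hdown : ∀ j, ∀ a : Fin n → ℕ, a ≤ E j → ∃ j', E j' = a)
    (j : Fin (m + 1)) :
    ∏ i, (x i - N i) ^ (E j i) = ∑ j', (T N (E j) (E j') : ℝ) * ∏ i, x i ^ E j' i := by
  classical
  rw [expand]
  have h1 : ∑ j', (T N (E j) (E j') : ℝ) * ∏ i, x i ^ E j' i =
      ∑ a ∈ univ.image E, (T N (E j) a : ℝ) * ∏ i, x i ^ a i := by
    rw [Finset.sum_image (fun a _ b _ h => hE h)]
  rw [h1]
  refine Finset.sum_subset ?_ ?_
  · intro a ha
    rw [Fintype.mem_piFinset] at ha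
    obtain ⟨j', hj'⟩ := hdown j a (fun i => by
      have h2 : a i ∈ range (E j i + 1) := ha i
      rw [mem_range] at h2
      show a i ≤ E j i
      omega)
    rw [mem_image]
    exact ⟨j', mem_univ _, hj'⟩
  · intro a _ ha
    have : ¬ a ≤ E j := by
      intro hle
      apply ha
      rw [Fintype.mem_piFinset]
      intro i
      show a i ∈ range (E j i + 1)
      rw [mem_range]
      have h3 : a i ≤ E j i := hle i
      omega
    rw [T_eq_zero N _ _ this]
    simp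

lemma nonzero_tri {n m : ℕ} (N : Fin n → ℤ) (E : Fin (m + 1) → Fin n → ℕ)
    (hE : Function.Injective E) (a : Fin (m + 1) → ℤ) (ha : a ≠ 0) :
    (fun j' => ∑ j, a j * T N (E j) (E j')) ≠ 0 := by
  classical
  -- choose `j₀` of maximal total degree with `a j₀ ≠ 0`
  have hne : (univ.filter fun j => a j ≠ 0).Nonempty := by
    by_contra h
    rw [Finset.not_nonempty_iff_eq_empty, Finset.filter_eq_empty_iff] at h
    apply ha
    ext j
    have := h (mem_univ j)
    simpa using this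
  obtain ⟨j₀, hj₀, hmax⟩ := Finset.exists_max_image _ (fun j => ∑ i, E j i) hne
  rw [mem_filter] at hj₀
  intro h0
  have h1 := congrFun h0 j₀
  simp only [Pi.zero_apply] at h1
  rw [Finset.sum_eq_single j₀] at h1
  · rw [T_self, mul_one] at h1
    exact hj₀.2 h1
  · intro j _ hj
    by_cases haj : a j = 0
    · rw [haj, zero_mul]
    · have hle : ¬ E j₀ ≤ E j := by
        intro hle
        have h2 := hmax j (by rw [mem_filter]; exact ⟨mem_univ _, haj⟩)
        have h3 : ∀ i, E j₀ i = E j i := by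
          by_contra hcon
          push Not at hcon
          obtain ⟨i, hi⟩ := hcon
          have h4 : ∑ i, E j₀ i < ∑ i, E j i :=
            Finset.sum_lt_sum (fun i _ => hle i) ⟨i, mem_univ _, lt_of_le_of_ne (hle i) hi⟩
          omega
        exact hj (hE (funext h3)).symm
      rw [T_eq_zero N _ _ hle, mul_zero]
  · intro h
    exact absurd (mem_univ _) h

/-- transfer of measures of linear independence by an integer matrix -/
lemma meas_transfer {m : ℕ} (y z : Fin (m + 1) → ℝ) (A : Fin (m + 1) → Fin (m + 1) → ℤ)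
    (hy : ∀ j, y j = ∑ j', (A j j' : ℝ) * z j')
    (hA : ∀ a : Fin (m + 1) → ℤ, a ≠ 0 → (fun j' => ∑ j, a j * A j j') ≠ 0)
    (w c : ℝ) (hc : 0 < c) (hz : Meas z w c) :
    ∃ c' : ℝ, 0 < c' ∧ Meas y w c' := by
  obtain ⟨B, hB1, hB⟩ : ∃ B : ℝ, 1 ≤ B ∧ ∀ j', ∑ j, |(A j j' : ℝ)| ≤ B := by
    refine ⟨1 + ∑ j', ∑ j, |(A j j' : ℝ)|, ?_, fun j' => ?_⟩
    · have : 0 ≤ ∑ j', ∑ j, |(A j j' : ℝ)| :=
        Finset.sum_nonneg fun _ _ => Finset.sum_nonneg fun _ _ => abs_nonneg _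
      linarith
    · have h1 : ∑ j, |(A j j' : ℝ)| ≤ ∑ j', ∑ j, |(A j j' : ℝ)| :=
        Finset.single_le_sum (f := fun j' => ∑ j, |(A j j' : ℝ)|)
          (fun _ _ => Finset.sum_nonneg fun _ _ => abs_nonneg _) (mem_univ j')
      linarith
  have hB0 : 0 < B := by linarith
  have hBw : 0 < B ^ w := Real.rpow_pos_of_pos hB0 w
  refine ⟨c / B ^ w, by positivity, fun a ha H hH haH => ?_⟩
  have h1 := hz _ (hA a ha) (H * B) (by nlinarith) (fun j' => by
    push_cast
    calc |∑ j, (a j : ℝ) * (A j j' : ℝ)| ≤ ∑ j, |(a j : ℝ) * (A j j' : ℝ)| :=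
          Finset.abs_sum_le_sum_abs _ _
      _ ≤ ∑ j, H * |(A j j' : ℝ)| := by
          refine Finset.sum_le_sum fun j _ => ?_
          rw [abs_mul]
          exact mul_le_mul_of_nonneg_right (haH j) (abs_nonneg _)
      _ = H * ∑ j, |(A j j' : ℝ)| := by rw [Finset.mul_sum]
      _ ≤ H * B := mul_le_mul_of_nonneg_left (hB j') (by linarith))
  have h2 : ∑ j', ((∑ j, a j * A j j' : ℤ) : ℝ) * z j' = ∑ j, (a j : ℝ) * y j := by
    push_cast
    simp_rw [Finset.sum_mul, hy, Finset.mul_sum]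
    rw [Finset.sum_comm]
    refine Finset.sum_congr rfl fun j _ => Finset.sum_congr rfl fun j' _ => ?_
    ring
  rw [h2, Real.mul_rpow (by linarith) hB0.le] at h1
  rw [div_le_iff₀ hBw]
  calc c ≤ H ^ w * B ^ w * |∑ j, (a j : ℝ) * y j| := h1
    _ = H ^ w * |∑ j, (a j : ℝ) * y j| * B ^ w := by ring

/-- measure of linear independence of `e^{k_0}, …, e^{k_m}` for distinct nonnegative integers, one
of which is `0` -/
lemma e_meas' (m : ℕ) (k : Fin (m + 1) → ℕ) (hinj : Function.Injective k)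
    (h0 : ∃ j, k j = 0) (η : ℝ) (hη : 0 < η) :
    ∃ c : ℝ, 0 < c ∧ Meas (fun i => Real.exp (k i)) (m + η) c := by
  obtain ⟨j₀, hj₀⟩ := h0
  let σ : Equiv.Perm (Fin (m + 1)) := Equiv.swap 0 j₀
  obtain ⟨c, hc, h⟩ := e_meas m (fun i => ((k (σ i) : ℕ) : ℤ)) (fun i j hij => by
    have h1 : ((k (σ i) : ℕ) : ℤ) = ((k (σ j) : ℕ) : ℤ) := hij
    have h2 : k (σ i) = k (σ j) := by exact_mod_cast h1
    exact σ.injective (hinj h2)) (by simp [σ, hj₀]) (fun i => by positivity) η hη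
  refine ⟨c, hc, fun a ha H hH haH => ?_⟩
  have h1 := h (fun i => a (σ i)) (by
    intro h0
    apply ha
    ext i
    have := congrFun h0 (σ.symm i)
    simpa using this) H hH (fun j => haH _)
  have h2 : ∑ i, (a (σ i) : ℝ) * Real.exp (((k (σ i) : ℕ) : ℤ) : ℝ) =
      ∑ i, (a i : ℝ) * Real.exp (k i) := by
    rw [← Equiv.sum_comp σ (fun i => (a i : ℝ) * Real.exp (k i))]
    simp
  rw [h2] at h1
  exact h1

/-- **Digits of integer powers of `e`.** -/
theorem main {n m : ℕ} (k : Fin n → ℕ) (E : Fin (m + 1) → Fin n → ℕ)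
    (hdown : ∀ j, ∀ a : Fin n → ℕ, a ≤ E j → ∃ j', E j' = a)
    (hinj : Function.Injective fun j => ∑ i, k i * E j i) (ε : ℝ) (hε : 0 < ε) :
    ∃ L₀ : ℕ, ∀ L : ℕ, L₀ ≤ L → ∀ b : ℕ, 2 ≤ b →
      |(monComplexity b (fun i => Real.exp (k i)) E L : ℝ) - L / (m + 1)| < ε * L := by
  have hE : Function.Injective E := fun j j' h => hinj (by simp [h])
  have hmeas : ∀ η : ℝ, 0 < η → ∃ c : ℝ, 0 < c ∧
      Meas (fun j => ∏ i, Int.fract (Real.exp (k i)) ^ E j i) (m + η) c := by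
    intro η hη
    obtain ⟨j₀, hj₀⟩ := hdown 0 0 (fun i => Nat.zero_le _)
    obtain ⟨c, hc, h⟩ := e_meas' m (fun j => ∑ i, k i * E j i) hinj ⟨j₀, by simp [hj₀]⟩ η hη
    refine meas_transfer _ _ (fun j j' => T (fun i => ⌊Real.exp (k i)⌋) (E j) (E j'))
      (fun j => ?_) (fun a ha => nonzero_tri _ E hE a ha) _ c hc h
    have h1 := expand_family (fun i => ⌊Real.exp (k i)⌋) (fun i => Real.exp (k i)) E hE hdown j
    have h2 : ∀ j', ∏ i, Real.exp (k i) ^ E j' i = Real.exp ((∑ i, k i * E j' i : ℕ) : ℝ) := by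
      intro j'
      push_cast
      rw [Real.exp_sum]
      refine Finset.prod_congr rfl fun i _ => ?_
      rw [← Real.exp_nat_mul, mul_comm]
    simp_rw [h2] at h1
    exact h1
  have hlow : ∀ η : ℝ, 0 < η → ∀ θ : ℝ, 0 ≤ θ → θ * (1 + (m + η)) < 1 →
      ∀ᶠ L : ℕ in atTop, ∀ b : ℕ, 2 ≤ b → ∀ q : ℕ, (q : ℝ) ≤ θ * L →
        ¬ MonRelation b (fun i => Real.exp (k i)) E L q := by
    intro η hη θ hθ0 hθ
    obtain ⟨c, hc, h⟩ := hmeas η hη
    exact mon_lower _ E (m + η) c (by positivity) hc h θ hθ0 hθ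
  obtain ⟨L₀, h⟩ := two_sided_of (fun b L q => MonRelation b (fun i => Real.exp (k i)) E L q) m m
    (Nat.cast_nonneg m) (fun b L q h => monRelation_of_lt b _ E L q h)
    (fun θ hθ0 hθ => by
      obtain ⟨η, hη, h1⟩ : ∃ η : ℝ, 0 < η ∧ θ * (1 + (m + η)) < 1 := by
        refine ⟨(1 - θ * (1 + m)) / (2 * (θ + 1)), by
          have : 0 < 1 - θ * (1 + m) := by linarith
          positivity, ?_⟩
        have h2 : 0 < 1 - θ * (1 + m) := by linarith
        have h3 : θ * ((1 - θ * (1 + m)) / (2 * (θ + 1))) < 1 - θ * (1 + m) := by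
          rw [← mul_div_assoc, div_lt_iff₀ (by positivity)]
          nlinarith
        linarith
      exact hlow η hη θ hθ0 h1) ε hε
  refine ⟨L₀, fun L hL b hb => ?_⟩
  have h2 : (1 / ((m : ℝ) + 1) - ε) * L < monComplexity b (fun i => Real.exp (k i)) E L ∧
      (monComplexity b (fun i => Real.exp (k i)) E L : ℝ) < (1 / ((m : ℝ) + 1) + ε) * L :=
    h L hL b hb
  have e : (L : ℝ) / (m + 1) = 1 / ((m : ℝ) + 1) * L := by ring
  rw [abs_lt, e]
  constructor <;> linarith [h2.1, h2.2]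

end Pool.Agent.TH629.ExpDig
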