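import Pool.Agent.TH64.Fill

/-!
# Torsion elements of hyperbolic groups are conjugate into a small ball (helper629, job 476)
-/

set_option autoImplicit false

namespace Pool.Agent.TH64

variable {G : Type*} [Group G]

theorem ft (H : Hyp G) (a : G) (ha : IsOfFinOrder a) :
    ∃ p, H.len (p⁻¹ * a * p) ≤ 2 * H.D + 1 := by
  classical
  have hfin : (Subgroup.zpowers a : Set G).Finite := finite_zpowers.2 ha
  set S : Finset G := hfin.toFinset with hS
  have hmem : ∀ g, g ∈ S ↔ g ∈ Subgroup.zpowers a := by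
    intro g
    rw [hS, Set.Finite.mem_toFinset]
    rfl
  set r : G → ℕ := fun p => S.sup (fun s => H.d p s) with hr
  have hrle : ∀ p n, r p ≤ n ↔ ∀ s ∈ S, H.d p s ≤ n := by
    intro p n
    exact Finset.sup_le_iff
  have hle : ∀ p s, s ∈ S → H.d p s ≤ r p := fun p s hs => (hrle p (r p)).1 le_rfl s hs
  obtain ⟨p, -, hp⟩ := WellFounded.has_min (measure r).wf Set.univ ⟨1, trivial⟩
  have hp' : ∀ q, r p ≤ r q := fun q => not_lt.1 (hp q trivial)
  have hra : r (a * p) ≤ r p := by
    rw [hrle]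
    intro s hs
    have h1 : a⁻¹ * s ∈ S := by
      rw [hmem] at hs ⊢
      exact (Subgroup.zpowers a).mul_mem ((Subgroup.zpowers a).inv_mem (Subgroup.mem_zpowers a)) hs
    have h2 := hle p _ h1
    rw [← H.d_mul a, mul_inv_cancel_left] at h2
    exact h2
  refine ⟨p, ?_⟩
  have hd : H.len (p⁻¹ * a * p) = H.d p (a * p) := by
    unfold Hyp.d
    rw [mul_assoc]
  rw [hd]
  by_contra hcon
  push Not at hcon
  obtain ⟨m, hm1, hm2⟩ := H.between p (a * p) (H.d p (a * p) / 2) (by omega)
  have h1 : r p ≤ r m := hp' m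
  have h2 : r m ≤ r p - 1 := by
    rw [hrle]
    intro s hs
    have h3 := H.fp m s p (a * p)
    have h4 := hle p s hs
    have h5 := hle (a * p) s hs
    rw [H.d_comm m p, H.d_comm s p, H.d_comm s (a * p)] at h3
    omega
  have h3 : 1 ≤ r p := by
    have h1S : (1 : G) ∈ S := (hmem 1).2 (Subgroup.one_mem _)
    have h4 := hle p 1 h1S
    have h5 := hle (a * p) 1 h1S
    have h6 := H.d_tri p 1 (a * p)
    rw [H.d_comm 1 (a * p)] at h6
    omega
  omega

end Pool.Agent.TH64
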