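import Pool.Agent.TH64.Fill
import Pool.Agent.TH64.Lox

/-!
# Torsion modulo `M` comes from torsion or from `x`: the long case (helper629, job 509)
-/

set_option autoImplicit false

namespace Pool.Agent.TH64

variable {G : Type*} [Group G]

theorem tor_large {H : Hyp G} {x : G} (A : Ax H x) : ∃ N0 : ℕ, ∀ N ≥ N0, ∀ M : Subgroup G,
    Fill A N M → ∀ z : G, (∀ g : G, ∀ n ∈ M, H.len z ≤ H.len (g⁻¹ * (z * n) * g)) →
    4 * H.D + 2 ≤ H.len z → ∀ m : ℕ, 1 ≤ m → z ^ m ∈ M →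
    ∃ g : G, g⁻¹ * z * g ∈ Subgroup.zpowers x := by
  classical
  obtain ⟨e0, he0⟩ : ∃ e0 : ℕ, e0 = 4 * H.D + 1 := ⟨_, rfl⟩
  obtain ⟨B, hB⟩ : ∃ B : ℕ, B = 2 * e0 + 5 * A.c + H.D + 1 := ⟨_, rfl⟩
  refine ⟨26 * A.th + 2 * (2 * (A.c * (3 * A.c + e0) + A.c)) + (A.c * B + A.c) + 1, ?_⟩
  intro N hN M hF z hz hlen m hm hzm
  by_contra hcon
  push Not at hcon
  obtain ⟨K, hK⟩ : ∃ K : ℤ, K = 2 * ((A.c : ℤ) * (3 * A.c + e0) + A.c) := ⟨_, rfl⟩
  obtain ⟨CB, hCB⟩ : ∃ CB : ℤ, CB = (A.c : ℤ) * B + A.c := ⟨_, rfl⟩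
  have hNZ : 26 * (A.th : ℤ) + 2 * K + CB + 1 ≤ N := by
    rw [hK, hCB]
    exact_mod_cast hN
  have hK0 : 0 ≤ K := by rw [hK]; positivity
  have hcCB : (A.c : ℤ) ≤ CB := by
    rw [hCB]
    have : (0 : ℤ) ≤ (A.c : ℤ) * B := by positivity
    omega
  have hzmin : ∀ p, H.len z ≤ H.len (p⁻¹ * z * p) := by
    intro p
    have := hz p 1 M.one_mem
    rwa [mul_one] at this
  have hsup : ∀ i j : ℕ, H.len (z ^ i) + H.len (z ^ j) ≤ H.len (z ^ (i + j)) + e0 := by
    intro i j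
    rw [he0]
    exact H.lox_sup_min hzmin hlen i j
  have hlin : ∀ n : ℕ, n ≤ H.len (z ^ n) := H.lox_lin_min hzmin hlen
  have hne : z ^ m ≠ 1 := by
    intro h
    have := hlin m
    rw [h, H.len_one] at this
    omega
  obtain ⟨u, hu⟩ := hF.gr (z ^ m) hzm hne 1
  rw [mul_one] at hu
  -- the two lines
  have hYZ : u⁻¹ * (z * u) ∉ Subgroup.zpowers x := by
    rw [← mul_assoc]
    exact hcon u
  set a := H.len z with ha
  have hf1 : H.len (z ^ 1) = a := by rw [pow_one]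
  have hs1 := hsup m 1
  rw [hf1] at hs1
  have hs1' := hsup 1 m
  rw [hf1, add_comm 1 m] at hs1'
  have dm : H.d 1 (z ^ m) = H.len (z ^ m) := H.d_one _
  have dm1 : H.d 1 (z ^ (m + 1)) = H.len (z ^ (m + 1)) := H.d_one _
  have dz : H.d 1 z = a := H.d_one _
  have dzm : H.d z (z ^ (m + 1)) = H.len (z ^ m) := by
    have := H.d_mul z 1 (z ^ m)
    rw [mul_one, ← pow_succ'] at this
    rw [this, dm]
  have dmm : H.d (z ^ m) (z ^ (m + 1)) = a := by
    rw [H.d_pow z (by omega), Nat.add_sub_cancel_left, hf1]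
  -- displacements
  have g1 := A.mono u (a := 1) (b := z ^ (m + 1)) (p := z ^ m) (e := e0)
    (by rw [dm, dmm, dm1]; omega)
  have g2 := A.mono (z * u) (a := 1) (b := z ^ (m + 1)) (p := z) (e := e0)
    (by rw [dz, dzm, dm1]; omega)
  rw [← hK] at g1 g2
  have g3 : A.s (z * u) z (z ^ (m + 1)) = A.s u 1 (z ^ m) := by
    have := A.s_mul z u 1 (z ^ m)
    rwa [mul_one, ← pow_succ'] at this
  rw [g3] at g2
  have hpos : ∀ t : ℤ, 0 ≤ |t| := fun t => abs_nonneg t
  have q1 := hpos (A.s u (z ^ m) (z ^ (m + 1)))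
  -- the projections
  have hthpos : (0 : ℤ) ≤ A.th := by positivity
  have hb := A.pr_between u 1 (z ^ m) (by omega)
  obtain ⟨P, hP⟩ : ∃ P, P = A.pr u 1 := ⟨_, rfl⟩
  rw [← hP] at hb
  have hzP : A.pr (z * u) z = z * P := by
    have := A.pr_mul z u 1
    rw [mul_one] at this
    rw [this, hP]
  have d1 : H.d z (z * P) = H.d 1 P := by
    have := H.d_mul z 1 P
    rwa [mul_one] at this
  have d2 : H.d (z * P) (z ^ (m + 1)) = H.d P (z ^ m) := by
    have := H.d_mul z P (z ^ m)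
    rwa [← pow_succ'] at this
  have t1 := H.d_tri P (z ^ m) (z ^ (m + 1))
  have t2 := H.d_tri 1 z (z * P)
  have t3 := H.d_tri 1 (z * P) (z ^ (m + 1))
  have t4 := H.fp P (z * P) 1 (z ^ (m + 1))
  rw [H.d_comm P 1, H.d_comm (z * P) 1] at t4
  have hclose : H.d P (z * P) ≤ a + (2 * e0 + 2 * A.c + H.D) := by omega
  -- the displacement between `P` and `z P`
  have hPline : ∃ k : ℤ, P = u * x ^ k := ⟨_, by rw [hP]; rfl⟩
  have hzPline : ∃ k : ℤ, z * P = z * u * x ^ k := by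
    obtain ⟨k, hk⟩ := hPline
    exact ⟨k, by rw [hk, mul_assoc]⟩
  have hclaim : (N : ℤ) - 13 * A.th - K ≤ |A.s u P (z * P)| := by
    have e1 : A.s u P (z * P) = A.s u 1 (z * P) := by rw [hP, A.s_pr_left, ← hP]
    rcases A.beh hYZ (z ^ (m + 1)) with h | h
    · obtain ⟨k, hk⟩ := hzPline
      have h1 := h k
      rw [← hk] at h1
      have h2 := A.s_add u 1 (z ^ (m + 1)) (z * P)
      rw [e1, ← h2]
      have h3 := abs_sub_abs_le_abs_sub (A.s u 1 (z ^ (m + 1))) (- A.s u (z ^ (m + 1)) (z * P))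
      rw [abs_neg, sub_neg_eq_add] at h3
      omega
    · exfalso
      obtain ⟨k, hk⟩ := hPline
      have h1 := h k
      rw [← hk] at h1
      have h2 := A.s_add (z * u) 1 (z ^ (m + 1)) P
      have h3 := abs_sub_abs_le_abs_sub (A.s (z * u) 1 (z ^ (m + 1)))
        (- A.s (z * u) (z ^ (m + 1)) P)
      rw [abs_neg, sub_neg_eq_add, h2] at h3
      have h4 := hpos (A.s (z * u) 1 z)
      have h5 := A.proj_pr (z * u) 1 P (by omega)
      have h6 := H.d_tri 1 (A.pr (z * u) 1) (z * P)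
      rw [← hzP, A.d_pr_pr, hzP] at h6
      have h7 := A.sup_z (i := |A.s (z * u) 1 z|)
        (j := |A.s (z * u) 1 P| - |A.s (z * u) 1 z|) (k := |A.s (z * u) 1 P|)
        (by
          rw [abs_abs, abs_abs,
            abs_of_nonneg (a := |A.s (z * u) 1 P| - |A.s (z * u) 1 z|) (by omega)]
          ring)
      have h8 := A.len_ge (i := |A.s (z * u) 1 P| - |A.s (z * u) 1 z|) (m := B)
        (by rw [← hCB, abs_of_nonneg (by omega)]; omega)
      have habs : ∀ t : ℤ, H.len (x ^ |t|) = H.len (x ^ t) := by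
        intro t
        rw [PAx.len_zpow |t|, PAx.len_zpow t, Int.natAbs_abs]
      rw [habs, habs] at h7
      omega
  -- rotate
  have hprP : A.pr u P = P := by
    obtain ⟨k, hk⟩ := hPline
    unfold PAx.pr
    rw [hk, inv_mul_cancel_left, A.κ_zpow]
  have hrot : ∀ k : ℤ, a ≤ H.d P (PAx.rt x u (N * k) * (z * P)) := by
    intro k
    have h1 := hF.rot u k
    have h2 := hz P (z⁻¹ * PAx.rt x u (N * k) * z) (by
      have := hF.normal.conj_mem _ h1 z⁻¹
      rwa [inv_inv] at this)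
    unfold Hyp.d
    rwa [show P⁻¹ * (z * (z⁻¹ * PAx.rt x u (N * k) * z)) * P =
      P⁻¹ * (PAx.rt x u (N * k) * (z * P)) by group] at h2
  have hq := A.proj_pr u P (z * P) (by omega)
  rw [hprP, H.d_self] at hq
  have key : ∀ k : ℤ, (k = 1 ∨ k = -1) →
      |A.s u P (z * P)| - |A.s u P (z * P) + N * k| ≥ N - 26 * A.th - 2 * K → False := by
    intro k _ hk2
    have h1 := A.d_le_pr u P (PAx.rt x u (N * k) * (z * P))
    rw [hprP, H.d_self, A.s_rt_right, A.d_rt_pr] at h1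
    have h2 := hrot k
    obtain ⟨s, hs⟩ : ∃ s, s = A.s u P (z * P) := ⟨_, rfl⟩
    rw [← hs] at h1 hk2 hq
    have h3 := A.sup_z (i := s + N * k) (j := |s| - |s + N * k|) (k := s)
      (by rw [abs_of_nonneg (a := |s| - |s + N * k|) (by omega)]; ring)
    have h4 := A.len_ge (i := |s| - |s + N * k|) (m := B)
      (by rw [← hCB, abs_of_nonneg (by omega)]; omega)
    omega
  rcases le_total 0 (A.s u P (z * P)) with h0 | h0
  · apply key (-1) (Or.inr rfl)
    rw [abs_of_nonneg h0] at hclaim ⊢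
    rcases le_total 0 (A.s u P (z * P) + N * (-1)) with h1 | h1
    · rw [abs_of_nonneg h1]; omega
    · rw [abs_of_nonpos h1]; omega
  · apply key 1 (Or.inl rfl)
    rw [abs_of_nonpos h0] at hclaim ⊢
    rcases le_total 0 (A.s u P (z * P) + N * 1) with h1 | h1
    · rw [abs_of_nonneg h1]; omega
    · rw [abs_of_nonpos h1]; omega

end Pool.Agent.TH64
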