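import Pool.Agent.TH672.StrN
import Pool.Agent.TH894.J104

/-!
# Peeling of the official numerals; dyadic and unary numerals
-/

set_option autoImplicit false
namespace Pool.Agent.TH672
open Form
namespace J266

variable {J : Type} {sz : J → ℕ} {Γ : List Form} {C : J → List Form}

theorem pd_of_ud {N : J → ℕ} (hN : Pb sz N) {F : J → Form} (h : UD (fun _ => Γ) C N F) :
    PD Γ sz C F := by
  obtain ⟨_, K, hK⟩ := h
  exact ⟨_, (Pb.const K).mul (hN.add (Pb.const 1)), hK⟩

theorem ub_self {N : J → ℕ} {F : J → Form} (h : ∀ j, (F j).len ≤ N j) : UB N F :=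
  ⟨1, fun j => by have := h j; show _ ≤ 1 * (N j + 1); omega⟩

/-- remove a quantifier -/
theorem inst_self {x : ℕ} {F : J → Form} (hF : Pb sz fun j => (F j).len)
    (h : PD Γ sz C (fun j => Form.all x (F j))) : PD Γ sz C F := by
  refine h.cut (pd_of_ud (N := fun j => (F j).len) hF ?_)
  have ub : UB (fun j => (F j).len) F := ub_self fun j => le_rfl
  exact ud_all_self (UD.hyp (ub.all x) (fun j => List.mem_cons_self ..))

/-- the unit step -/
theorem unit (v : ℕ) {a e e' W t : J → Form} (ha : Pb sz fun j => (a j).len)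
    (he : Pb sz fun j => (e j).len) (he' : Pb sz fun j => (e' j).len)
    (hW : Pb sz fun j => (W j).len) (ht : Pb sz fun j => (t j).len)
    (fa : ∀ j, ¬ (a j).Free v) (fe : ∀ j, ¬ (e j).Free v)
    (h1 : PD Γ sz C (fun j => (a j).imp ((e' j).imp (W j))))
    (h2 : PD Γ sz C (fun j => (e j).imp ((t j).imp (e' j)))) :
    PD Γ sz C (fun j => (a j).imp ((e j).imp (Form.all v ((t j).imp (W j))))) := by
  refine PD.cuts [fun j => (a j).imp ((e' j).imp (W j)), fun j => (e j).imp ((t j).imp (e' j))]
    ?_ ?_
  · intro F hF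
    simp only [List.mem_cons, List.not_mem_nil, or_false] at hF
    rcases hF with rfl | rfl
    · exact h1
    · exact h2
  · refine pd_of_ud (N := fun j => (a j).len + (e j).len + (e' j).len + (W j).len + (t j).len)
      ((((ha.add he).add he').add hW).add ht) ?_
    set N : J → ℕ := fun j => (a j).len + (e j).len + (e' j).len + (W j).len + (t j).len with hN
    have ua : UB N a := ub_self fun j => by simp only [hN]; omega
    have ue : UB N e := ub_self fun j => by simp only [hN]; omega
    have ue' : UB N e' := ub_self fun j => by simp only [hN]; omega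
    have uW : UB N W := ub_self fun j => by simp only [hN]; omega
    have ut : UB N t := ub_self fun j => by simp only [hN]; omega
    refine ND.ud (ND.intro (ND.intro (ND.gen v ?_ (ND.intro ?_))))
    · intro G hG j
      simp only [List.mem_cons, List.not_mem_nil, or_false] at hG
      rcases hG with rfl | rfl
      · exact fe j
      · exact fa j
    · have hU : ∀ G ∈ [t, e, a], UB N G := by
        intro G hG
        simp only [List.mem_cons, List.not_mem_nil, or_false] at hG
        rcases hG with rfl | rfl | rfl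
        · exact ut
        · exact ue
        · exact ua
      have l1 := ND.of (UD.hyp (Γ := fun _ => Γ) (C := fun j => [fun j => (a j).imp ((e' j).imp (W j)), fun j => (e j).imp ((t j).imp (e' j))].map (fun F => F j) ++ C j) (N := N)
        (F := fun j => (a j).imp ((e' j).imp (W j))) (ua.imp (ue'.imp uW)) (fun j => by simp)) hU
      have l2 := ND.of (UD.hyp (Γ := fun _ => Γ) (C := fun j => [fun j => (a j).imp ((e' j).imp (W j)), fun j => (e j).imp ((t j).imp (e' j))].map (fun F => F j) ++ C j) (N := N)
        (F := fun j => (e j).imp ((t j).imp (e' j))) (ue.imp (ut.imp ue')) (fun j => by simp)) hU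
      have na := ND.hyp (Γ := fun _ => Γ) (C := fun j => [fun j => (a j).imp ((e' j).imp (W j)), fun j => (e j).imp ((t j).imp (e' j))].map (fun F => F j) ++ C j) (N := N) hU (F := a) (by simp)
      have ne := ND.hyp (Γ := fun _ => Γ) (C := fun j => [fun j => (a j).imp ((e' j).imp (W j)), fun j => (e j).imp ((t j).imp (e' j))].map (fun F => F j) ++ C j) (N := N) hU (F := e) (by simp)
      have nt := ND.hyp (Γ := fun _ => Γ) (C := fun j => [fun j => (a j).imp ((e' j).imp (W j)), fun j => (e j).imp ((t j).imp (e' j))].map (fun F => F j) ++ C j) (N := N) hU (F := t) (by simp)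
      exact (l1.mp na).mp ((l2.mp ne).mp nt)

/-- the last step -/
theorem last (v : ℕ) {a e' W t : J → Form} (ha : Pb sz fun j => (a j).len)
    (he' : Pb sz fun j => (e' j).len)
    (hW : Pb sz fun j => (W j).len) (ht : Pb sz fun j => (t j).len)
    (fa : ∀ j, ¬ (a j).Free v)
    (h1 : PD Γ sz C (fun j => (a j).imp ((e' j).imp (W j))))
    (h2 : PD Γ sz C (fun j => (t j).imp (e' j))) :
    PD Γ sz C (fun j => (a j).imp (Form.all v ((t j).imp (W j)))) := by
  refine PD.cuts [fun j => (a j).imp ((e' j).imp (W j)), fun j => (t j).imp (e' j)]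
    ?_ ?_
  · intro F hF
    simp only [List.mem_cons, List.not_mem_nil, or_false] at hF
    rcases hF with rfl | rfl
    · exact h1
    · exact h2
  · refine pd_of_ud (N := fun j => (a j).len + (e' j).len + (W j).len + (t j).len)
      (((ha.add he').add hW).add ht) ?_
    set N : J → ℕ := fun j => (a j).len + (e' j).len + (W j).len + (t j).len with hN
    have ua : UB N a := ub_self fun j => by simp only [hN]; omega
    have ue' : UB N e' := ub_self fun j => by simp only [hN]; omega
    have uW : UB N W := ub_self fun j => by simp only [hN]; omega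
    have ut : UB N t := ub_self fun j => by simp only [hN]; omega
    refine ND.ud (ND.intro (ND.gen v ?_ (ND.intro ?_)))
    · intro G hG j
      simp only [List.mem_cons, List.not_mem_nil, or_false] at hG
      subst hG
      exact fa j
    · have hU : ∀ G ∈ [t, a], UB N G := by
        intro G hG
        simp only [List.mem_cons, List.not_mem_nil, or_false] at hG
        rcases hG with rfl | rfl
        · exact ut
        · exact ua
      have l1 := ND.of (UD.hyp (Γ := fun _ => Γ) (C := fun j => [fun j => (a j).imp ((e' j).imp (W j)), fun j => (t j).imp (e' j)].map (fun F => F j) ++ C j) (N := N)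
        (F := fun j => (a j).imp ((e' j).imp (W j))) (ua.imp (ue'.imp uW)) (fun j => by simp)) hU
      have l2 := ND.of (UD.hyp (Γ := fun _ => Γ) (C := fun j => [fun j => (a j).imp ((e' j).imp (W j)), fun j => (t j).imp (e' j)].map (fun F => F j) ++ C j) (N := N)
        (F := fun j => (t j).imp (e' j)) (ut.imp ue') (fun j => by simp)) hU
      have na := ND.hyp (Γ := fun _ => Γ) (C := fun j => [fun j => (a j).imp ((e' j).imp (W j)), fun j => (t j).imp (e' j)].map (fun F => F j) ++ C j) (N := N) hU (F := a) (by simp)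
      have nt := ND.hyp (Γ := fun _ => Γ) (C := fun j => [fun j => (a j).imp ((e' j).imp (W j)), fun j => (t j).imp (e' j)].map (fun F => F j) ++ C j) (N := N) hU (F := t) (by simp)
      exact (l1.mp na).mp (l2.mp nt)

/-! ### Lengths -/

theorem len_atoms (x : ℕ) : (Form.add x x 0).len = 2 * x + 6 ∧ (Form.succ 0 1).len = 6 ∧
    (Form.succ 1 x).len = x + 6 ∧ (Form.succ 0 x).len = x + 5 ∧ (Form.zero x).len = x + 4 := by
  refine ⟨?_, ?_, ?_, ?_, ?_⟩ <;> simp only [Form.len, Form.str, varStr, List.length_append,
    List.length_cons, List.length_nil, List.length_replicate] <;> omega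

theorem len_digit (x : ℕ) (b : Bool) (φ : Form) : (digit x b φ).len ≤ φ.len + (10 * x + 100) := by
  obtain ⟨h1, h2, h3, h4, _⟩ := len_atoms x
  cases b <;> simp only [digit, Ext.len_all, Ext.len_imp, if_true, Bool.false_eq_true, if_false,
    h1, h2, h3, h4] <;> omega

theorem len_foldr (x : ℕ) (φ : Form) : ∀ l : List Bool,
    (l.foldr (digit x) φ).len ≤ φ.len + (10 * x + 100) * l.length
  | [] => by simp
  | b :: l => by
    have h1 := len_foldr x φ l
    have h2 := len_digit x b (l.foldr (digit x) φ)
    simp only [List.foldr_cons, List.length_cons, Nat.mul_succ]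
    omega

theorem pb_imp {F G : J → Form} (h : Pb sz fun j => (F j).len) (h' : Pb sz fun j => (G j).len) :
    Pb sz fun j => ((F j).imp (G j)).len :=
  ((h.add h').add (Pb.const 3)).mono fun j => by rw [Ext.len_imp]

theorem pb_all {v : ℕ} {F : J → Form} (h : Pb sz fun j => (F j).len) :
    Pb sz fun j => (Form.all v (F j)).len :=
  (h.add (Pb.const (v + 4))).mono fun j => by rw [Ext.len_all]; omega

/-! ### The lines -/

/-- double of `.o 0` -/
def p0 (z : ℕ) : Fm Sy := .ex 20 (.and (f1 (.o 0) 20) (.add 20 20 z))

/-- the successor of the double of `.o 0` -/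
def p1 (z : ℕ) : Fm Sy :=
  .ex 20 (.and (f1 (.o 0) 20) (.ex 21 (.and (.add 20 20 21) (.succ 21 z))))

theorem ub_pb {F : J → Form} {b : Sy → Form} {Rs : List (J → Form)} (hR : ∀ R ∈ Rs, Role sz R)
    (φ : Fm Sy) (h : F = trR b Rs φ) : Pb sz fun j => (F j).len := by
  subst h
  obtain ⟨K, hK⟩ := ub_tr (κ := Sy) (J := J)
    (N := fun j => blen b + ((Rs.map fun R => R j).map Form.len).sum)
    (ι := fun j => mk b (Rs.map fun R => R j)) (fun j i => mk_len _ _ _) φ
  exact ((Pb.const K).mul ((pb_roles hR).add (Pb.const 1))).mono hK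

theorem role1 (E : Setting) {f : J → List Bool} (hf : Pb sz fun j => (f j).length) :
    ∀ R ∈ [fun j => Yf E.b (f j)], Role sz R := by
  intro R hR
  simp only [List.mem_cons, List.not_mem_nil, or_false] at hR
  rw [hR]; exact E.yf_role' hf

theorem role2 (E : Setting) (b : Bool) {f : J → List Bool} (hf : Pb sz fun j => (f j).length) :
    ∀ R ∈ [fun j => Yf E.b (f j), fun j => Yf E.b (f j ++ [b])], Role sz R := by
  intro R hR
  simp only [List.mem_cons, List.not_mem_nil, or_false] at hR
  rcases hR with rfl | rfl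
  · exact E.yf_role' hf
  · exact E.yf_role' (by simpa using hf.add (Pb.const 1))

theorem lineA (E : Setting) {x : ℕ} (hx : 2 ≤ x ∧ x ≤ 4) {f : J → List Bool}
    (hf : Pb sz fun j => (f j).length) :
    PD E.Γ sz C (fun j => (At1 (Yf E.b (f j)) x).imp ((Form.add x x 0).imp
      (tr (mk E.b [Yf E.b (f j)]) (p0 0)))) := by
  have h : PD E.Γ sz C (trR E.b [fun j => Yf E.b (f j)]
      (alls [x, 0] (imps [f1 (.o 0) x, .add x x 0] (p0 0)))) := by
    refine E.stepM (role1 E hf) [] _ (by simp) ?_ ?_ ?_ (by simp)
    · intro y hy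
      obtain rfl | rfl | rfl : x = 2 ∨ x = 3 ∨ x = 4 := by omega
      all_goals
        simp [free_alls, p0, Fm.Free] at hy
        omega
    · obtain rfl | rfl | rfl : x = 2 ∨ x = 3 ∨ x = 4 := by omega
      all_goals simp [av_alls, p0, Av, ok]
    · intro S v _ _
      obtain rfl | rfl | rfl : x = 2 ∨ x = 3 ∨ x = 4 := by omega
      all_goals
        simp [p0, upd]
        intro a b h1 h2
        exact ⟨a, h1, h2⟩
  refine inst_self (x := 0) ?_ (inst_self (x := x) ?_ h)
  · exact ub_pb (b := E.b) (role1 E hf) (imps [f1 (.o 0) x, .add x x 0] (p0 0)) rfl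
  · exact ub_pb (b := E.b) (role1 E hf) (alls [0] (imps [f1 (.o 0) x, .add x x 0] (p0 0))) rfl

theorem lineB (E : Setting) {f : J → List Bool}
    (hf : Pb sz fun j => (f j).length) :
    PD E.Γ sz C (fun j => (tr (mk E.b [Yf E.b (f j)]) (p0 0)).imp ((Form.succ 0 1).imp
      (tr (mk E.b [Yf E.b (f j)]) (p1 1)))) := by
  have h : PD E.Γ sz C (trR E.b [fun j => Yf E.b (f j)]
      (alls [0, 1] (imps [p0 0, .succ 0 1] (p1 1)))) := by
    refine E.stepM (role1 E hf) [] _ (by simp) ?_ ?_ ?_ (by simp)
    · intro y hy
      simp [free_alls, p0, p1, Fm.Free] at hy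
      omega
    · simp [av_alls, p0, p1, Av, ok]
    · intro S v _ _
      simp [p0, p1, upd]
      intro a b k h1 h2 h3
      exact ⟨k, h1, a, h2, h3⟩
  refine inst_self (x := 1) ?_ (inst_self (x := 0) ?_ h)
  · exact ub_pb (b := E.b) (role1 E hf) (imps [p0 0, .succ 0 1] (p1 1)) rfl
  · exact ub_pb (b := E.b) (role1 E hf) (alls [1] (imps [p0 0, .succ 0 1] (p1 1))) rfl

theorem lineC (E : Setting) {x : ℕ} (hx : 2 ≤ x ∧ x ≤ 4) {f : J → List Bool}
    (hf : Pb sz fun j => (f j).length) :
    PD E.Γ sz C (fun j => (tr (mk E.b [Yf E.b (f j)]) (p1 1)).imp ((Form.succ 1 x).imp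
      (At1 (Yf E.b (f j ++ [true])) x))) := by
  have h : PD E.Γ sz C (trR E.b [fun j => Yf E.b (f j), fun j => Yf E.b (f j ++ [true])]
      (alls [1, x] (imps [p1 1, .succ 1 x] (f1 (.o 1) x)))) := by
    refine E.stepM (role2 E true hf) [defEq (.o 1) (dY true (.o 0))] _ ?_ ?_ ?_ ?_ ?_
    · intro ψ hψ
      simp only [List.mem_cons, List.not_mem_nil, or_false] at hψ
      rw [hψ]
      exact ⟨closed_dY _ _ _, av_dY _ _ _⟩
    · intro y hy
      obtain rfl | rfl | rfl : x = 2 ∨ x = 3 ∨ x = 4 := by omega
      all_goals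
        simp [free_alls, p1, Fm.Free] at hy
        omega
    · obtain rfl | rfl | rfl : x = 2 ∨ x = 3 ∨ x = 4 := by omega
      all_goals simp [av_alls, p1, Av, ok]
    · intro S v _ hv
      have h1 := sem_dY (hv (defEq (.o 1) (dY true (.o 0))) (by simp))
      obtain rfl | rfl | rfl : x = 2 ∨ x = 3 ∨ x = 4 := by omega
      all_goals
        simp [p1, upd, h1, App]
        intro a b k h1 u h2 h3 h4
        exact ⟨k, h1, u, h2, a, h3, h4⟩
    · intro ψ hψ
      simp only [List.mem_cons, List.not_mem_nil, or_false] at hψ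
      rw [hψ]
      exact E.yf_succ true hf
  refine inst_self (x := x) ?_ (inst_self (x := 1) ?_ h)
  · exact ub_pb (b := E.b) (role2 E true hf) (imps [p1 1, .succ 1 x] (f1 (.o 1) x)) rfl
  · exact ub_pb (b := E.b) (role2 E true hf) (alls [x] (imps [p1 1, .succ 1 x] (f1 (.o 1) x))) rfl

theorem lineC' (E : Setting) {x : ℕ} (hx : 2 ≤ x ∧ x ≤ 4) {f : J → List Bool}
    (hf : Pb sz fun j => (f j).length) :
    PD E.Γ sz C (fun j => (tr (mk E.b [Yf E.b (f j)]) (p0 0)).imp ((Form.succ 0 x).imp
      (At1 (Yf E.b (f j ++ [false])) x))) := by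
  have h : PD E.Γ sz C (trR E.b [fun j => Yf E.b (f j), fun j => Yf E.b (f j ++ [false])]
      (alls [0, x] (imps [p0 0, .succ 0 x] (f1 (.o 1) x)))) := by
    refine E.stepM (role2 E false hf) [defEq (.o 1) (dY false (.o 0))] _ ?_ ?_ ?_ ?_ ?_
    · intro ψ hψ
      simp only [List.mem_cons, List.not_mem_nil, or_false] at hψ
      rw [hψ]
      exact ⟨closed_dY _ _ _, av_dY _ _ _⟩
    · intro y hy
      obtain rfl | rfl | rfl : x = 2 ∨ x = 3 ∨ x = 4 := by omega
      all_goals
        simp [free_alls, p0, Fm.Free] at hy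
        omega
    · obtain rfl | rfl | rfl : x = 2 ∨ x = 3 ∨ x = 4 := by omega
      all_goals simp [av_alls, p0, Av, ok]
    · intro S v _ hv
      have h1 := sem_dY (hv (defEq (.o 1) (dY false (.o 0))) (by simp))
      obtain rfl | rfl | rfl : x = 2 ∨ x = 3 ∨ x = 4 := by omega
      all_goals
        simp [p0, upd, h1, App]
        intro a b k h1 h2 h4
        exact ⟨k, h1, a, h2, h4⟩
    · intro ψ hψ
      simp only [List.mem_cons, List.not_mem_nil, or_false] at hψ
      rw [hψ]
      exact E.yf_succ false hf
  refine inst_self (x := x) ?_ (inst_self (x := 0) ?_ h)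
  · exact ub_pb (b := E.b) (role2 E false hf) (imps [p0 0, .succ 0 x] (f1 (.o 1) x)) rfl
  · exact ub_pb (b := E.b) (role2 E false hf) (alls [x] (imps [p0 0, .succ 0 x] (f1 (.o 1) x))) rfl

theorem lineZ (E : Setting) {x : ℕ} (hx : 2 ≤ x ∧ x ≤ 4) :
    PD E.Γ sz C (fun _ => (Form.zero x).imp (At1 (Yf E.b []) x)) := by
  have hR : ∀ R ∈ [fun _ : J => Z0], Role sz R := by
    intro R hR
    simp only [List.mem_cons, List.not_mem_nil, or_false] at hR
    rw [hR]; exact role_Z0
  have h : PD E.Γ sz C (trR E.b [fun _ => Z0] (alls [x] (imps [.zero x] (f1 (.o 0) x)))) := by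
    refine E.stepM hR [fZ (.o 0)] _ ?_ ?_ ?_ ?_ ?_
    · intro ψ hψ
      simp only [List.mem_cons, List.not_mem_nil, or_false] at hψ
      rw [hψ]
      exact ⟨closed_fZ _, av_fZ _⟩
    · intro y hy
      simp [free_alls, Fm.Free] at hy
    · obtain rfl | rfl | rfl : x = 2 ∨ x = 3 ∨ x = 4 := by omega
      all_goals simp [av_alls, Av, ok]
    · intro S v _ hv
      have h1 := (sat_fZ S _ v).1 (hv (fZ (.o 0)) (by simp))
      simp [upd, h1]
    · intro ψ hψ
      simp only [List.mem_cons, List.not_mem_nil, or_false] at hψ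
      rw [hψ]
      exact E.z0
  refine inst_self (x := x) ?_ h
  exact ub_pb (b := E.b) hR (imps [.zero x] (f1 (.o 0) x)) rfl

/-! ### The induction -/

theorem free_At1 {R : Form} (hR : OkF R) {x y : ℕ} (h : (At1 R x).Free y) (hy : ok y) : y = x := by
  have hf : ¬ R.Free y := fun h => hR y h hy
  simp only [At1, wrap, Form.Free, hf, or_false] at h
  unfold ok at hy
  omega

theorem free_p0 {ι : Sy → Form} (hι : Okι ι) {z y : ℕ} (h : (tr ι (p0 z)).Free y) (hy : y < 5) :
    y = z := by
  have h1 := (tr_free hι (show ok y by unfold ok; omega)).1 h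
  simp [p0, Fm.Free] at h1
  omega

theorem free_p1 {ι : Sy → Form} (hι : Okι ι) {z y : ℕ} (h : (tr ι (p1 z)).Free y) (hy : y < 5) :
    y = z := by
  have h1 := (tr_free hι (show ok y by unfold ok; omega)).1 h
  simp [p1, Fm.Free] at h1
  omega

theorem pb_tr1 (E : Setting) {f : J → List Bool} (hf : Pb sz fun j => (f j).length) (φ : Fm Sy) :
    Pb sz fun j => (tr (mk E.b [Yf E.b (f j)]) φ).len :=
  ub_pb (b := E.b) (role1 E hf) φ rfl

theorem ok1 (E : Setting) {f : J → List Bool} (hf : Pb sz fun j => (f j).length) (j : J) :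
    Okι (mk E.b [Yf E.b (f j)]) := by
  refine mk_ok E.hb ?_
  intro R hR
  simp only [List.mem_cons, List.not_mem_nil, or_false] at hR
  rw [hR]
  exact (E.yf_role' hf).2 j

/-- one digit -/
theorem stepD (E : Setting) {x : ℕ} (hx : 2 ≤ x ∧ x ≤ 4) (b : Bool) {a W : J → Form}
    {f : J → List Bool} (hf : Pb sz fun j => (f j).length)
    (ha : Pb sz fun j => (a j).len)
    (haf : ∀ j y, (a j).Free y → y ≠ 0 ∧ y ≠ 1 ∧ y ≠ x) (hW : Pb sz fun j => (W j).len)
    (h : PD E.Γ sz C (fun j => (a j).imp ((At1 (Yf E.b (f j ++ [b])) x).imp (W j)))) :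
    PD E.Γ sz C (fun j => (a j).imp ((At1 (Yf E.b (f j)) x).imp (digit x b (W j)))) := by
  have fa0 : ∀ j, ¬ (a j).Free 0 := fun j h => (haf j 0 h).1 rfl
  have fa1 : ∀ j, ¬ (a j).Free 1 := fun j h => (haf j 1 h).2.1 rfl
  have fax : ∀ j, ¬ (a j).Free x := fun j h => (haf j x h).2.2 rfl
  have pe : Pb sz fun j => (At1 (Yf E.b (f j)) x).len := pb_tr1 E hf (f1 (.o 0) x)
  have pe' : Pb sz fun j => (At1 (Yf E.b (f j ++ [b])) x).len :=
    pb_tr1 E (f := fun j => f j ++ [b]) (by simpa using hf.add (Pb.const 1)) (f1 (.o 0) x)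
  have pp0 := pb_tr1 E hf (p0 0)
  have pp1 := pb_tr1 E hf (p1 1)
  have fe : ∀ y, y < 5 → y ≠ x → ∀ j, ¬ (At1 (Yf E.b (f j)) x).Free y := fun y hy hyx j h =>
    hyx (free_At1 ((E.yf_role' hf).2 j) h (by unfold ok; omega))
  cases b with
  | true =>
    have s1 := unit x ha pp1 pe' hW (Pb.const (Form.succ 1 x).len) fax
      (fun j h => by have := free_p1 (ok1 E hf j) h (by omega); omega) h (lineC E hx hf)
    have s2 := unit 1 ha pp0 pp1 (pb_all (pb_imp (Pb.const (Form.succ 1 x).len) hW))
      (Pb.const (Form.succ 0 1).len) fa1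
      (fun j h => by have := free_p0 (ok1 E hf j) h (by omega); omega) s1 (lineB E hf)
    exact unit 0 ha pe pp0 (pb_all (pb_imp (Pb.const (Form.succ 0 1).len)
      (pb_all (pb_imp (Pb.const (Form.succ 1 x).len) hW))))
      (Pb.const (Form.add x x 0).len) fa0 (fe 0 (by omega) (by omega)) s2 (lineA E hx hf)
  | false =>
    have s1 := unit x ha pp0 pe' hW (Pb.const (Form.succ 0 x).len) fax
      (fun j h => by have := free_p0 (ok1 E hf j) h (by omega); omega) h (lineC' E hx hf)
    exact unit 0 ha pe pp0 (pb_all (pb_imp (Pb.const (Form.succ 0 x).len) hW))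
      (Pb.const (Form.add x x 0).len) fa0 (fe 0 (by omega) (by omega)) s1 (lineA E hx hf)

end J266

variable {J : Type} {sz : J → ℕ} {C : J → List Form}

/-- the official formula with a numeral is obtained from the formula with the numeral Yf -/
theorem Setting.peel (E : Setting) (x : ℕ) (hx : 2 ≤ x ∧ x ≤ 4) {a φ : J → Form}
    {w : J → List Bool} (ha : Pb sz fun j => (a j).len)
    (haf : ∀ j y, (a j).Free y → y ≠ 0 ∧ y ≠ 1 ∧ y ≠ x) (hφ : Pb sz fun j => (φ j).len)
    (hw : Pb sz fun j => (w j).length)
    (h : PD E.Γ sz C (fun j => (a j).imp ((At1 (Yf E.b (w j)) x).imp (φ j)))) :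
    PD E.Γ sz C (fun j => (a j).imp (inst x (num (w j)) (φ j))) := by
  have psz : Pb (fun p : J × ℕ => sz p.1 + p.2) (fun p => sz p.1) := Pb.size.mono fun p => by simp
  have hdrop : ∀ p : J × ℕ, (((w p.1).drop ((w p.1).length - p.2)).foldr (digit x) (φ p.1)).len ≤
      (φ p.1).len + (10 * x + 100) * (w p.1).length := by
    intro p
    refine (J266.len_foldr x (φ p.1) _).trans ?_
    refine Nat.add_le_add_left (Nat.mul_le_mul_left _ ?_) _
    rw [List.length_drop]; omega
  have main : PD E.Γ (fun p : J × ℕ => sz p.1 + p.2) (fun p => C p.1)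
      (fun p => (a p.1).imp ((At1 (Yf E.b ((w p.1).take ((w p.1).length - p.2))) x).imp
        (((w p.1).drop ((w p.1).length - p.2)).foldr (digit x) (φ p.1)))) := by
    refine PD.ind (F := fun j k => (a j).imp ((At1 (Yf E.b ((w j).take ((w j).length - k))) x).imp
        (((w j).drop ((w j).length - k)).foldr (digit x) (φ j)))) ?_ ?_
    · simpa using h
    · refine PD.split (α := Option Bool) (fun p : J × ℕ => if h : p.2 < (w p.1).length then
        some ((w p.1)[(w p.1).length - p.2 - 1]) else none) ?_
      rintro (_ | b)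
      · refine PD.hyp ?_
        rintro ⟨⟨j, k⟩, hj⟩
        have hk : ¬ k < (w j).length := by
          intro hk
          simp [hk] at hj
        have e1 : (w j).length - (k + 1) = (w j).length - k := by omega
        simp only [e1]
        exact List.mem_cons_self ..
      · have key : ∀ p : {p : J × ℕ // (if h : p.2 < (w p.1).length then
            some ((w p.1)[(w p.1).length - p.2 - 1]) else none) = some b},
            (w p.1.1).take ((w p.1.1).length - p.1.2) =
              (w p.1.1).take ((w p.1.1).length - (p.1.2 + 1)) ++ [b] ∧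
            (w p.1.1).drop ((w p.1.1).length - (p.1.2 + 1)) =
              b :: (w p.1.1).drop ((w p.1.1).length - p.1.2) := by
          rintro ⟨⟨j, k⟩, hj⟩
          have hk : k < (w j).length := by
            by_contra hk
            simp [hk] at hj
          simp only [hk, dif_pos, Option.some.injEq] at hj
          obtain ⟨i, hi⟩ : ∃ i, (w j).length = k + 1 + i := ⟨(w j).length - k - 1, by omega⟩
          have e1 : (w j).length - (k + 1) = i := by omega
          have e2 : (w j).length - k = i + 1 := by omega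
          have e3 : (w j).length - k - 1 = i := by omega
          have hi' : i < (w j).length := by omega
          simp only [e3] at hj
          simp only [e1, e2]
          refine ⟨?_, ?_⟩
          · rw [List.take_add_one, List.getElem?_eq_getElem hi', hj]; rfl
          · rw [List.drop_eq_getElem_cons hi', hj]
        have pw : Pb (fun p : {p : J × ℕ // (if h : p.2 < (w p.1).length then
            some ((w p.1)[(w p.1).length - p.2 - 1]) else none) = some b} => sz p.1.1 + p.1.2)
            (fun p => sz p.1.1) := Pb.size.mono fun p => by simp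
        have h1 := J266.stepD E hx b (J := {p : J × ℕ // (if h : p.2 < (w p.1).length then
            some ((w p.1)[(w p.1).length - p.2 - 1]) else none) = some b})
          (sz := fun p => sz p.1.1 + p.1.2)
          (C := fun p => ((a p.1.1).imp
            ((At1 (Yf E.b ((w p.1.1).take ((w p.1.1).length - p.1.2))) x).imp
            (((w p.1.1).drop ((w p.1.1).length - p.1.2)).foldr (digit x) (φ p.1.1)))) :: C p.1.1)
          (a := fun p => a p.1.1)
          (W := fun p => ((w p.1.1).drop ((w p.1.1).length - p.1.2)).foldr (digit x) (φ p.1.1))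
          (f := fun p => (w p.1.1).take ((w p.1.1).length - (p.1.2 + 1)))
          ((hw.comp (fun p : {p : J × ℕ // (if h : p.2 < (w p.1).length then
            some ((w p.1)[(w p.1).length - p.2 - 1]) else none) = some b} => p.1.1) pw).mono
            fun p => by rw [List.length_take]; omega)
          (ha.comp (fun p : {p : J × ℕ // (if h : p.2 < (w p.1).length then
            some ((w p.1)[(w p.1).length - p.2 - 1]) else none) = some b} => p.1.1) pw)
          (fun p y => haf p.1.1 y)
          (((hφ.comp (fun p : {p : J × ℕ // (if h : p.2 < (w p.1).length then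
            some ((w p.1)[(w p.1).length - p.2 - 1]) else none) = some b} => p.1.1) pw).add
            ((Pb.const (10 * x + 100)).mul
            (hw.comp (fun p : {p : J × ℕ // (if h : p.2 < (w p.1).length then
            some ((w p.1)[(w p.1).length - p.2 - 1]) else none) = some b} => p.1.1) pw))).mono
            fun p => hdrop p.1)
          (PD.hyp fun p => by rw [(key p).1]; exact List.mem_cons_self ..)
        have e : (fun p : {p : J × ℕ // (if h : p.2 < (w p.1).length then
            some ((w p.1)[(w p.1).length - p.2 - 1]) else none) = some b} =>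
            (a p.1.1).imp ((At1 (Yf E.b ((w p.1.1).take ((w p.1.1).length - (p.1.2 + 1)))) x).imp
            (((w p.1.1).drop ((w p.1.1).length - (p.1.2 + 1))).foldr (digit x) (φ p.1.1)))) =
            fun p => (a p.1.1).imp
              ((At1 (Yf E.b ((w p.1.1).take ((w p.1.1).length - (p.1.2 + 1)))) x).imp
              (digit x b (((w p.1.1).drop ((w p.1.1).length - p.1.2)).foldr (digit x)
                (φ p.1.1)))) := by
          funext p
          rw [(key p).2, List.foldr_cons]
        exact e ▸ h1
  have h2 := main.comp (sz' := sz) (fun j : J => (j, (w j).length)) (Pb.size.add hw)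
  simp only [Nat.sub_self, List.take_zero, List.drop_zero] at h2
  have h3 := J266.last x ha (J266.pb_tr1 E (f := fun _ => []) (by simpa using Pb.const 0)
    (f1 (.o 0) x)) (((hφ.add ((Pb.const (10 * x + 100)).mul hw))).mono fun j =>
      J266.len_foldr x (φ j) (w j)) (Pb.const (Form.zero x).len)
    (fun j h => (haf j x h).2.2 rfl) h2 (J266.lineZ E hx)
  have e : (fun j => (a j).imp (inst x (num (w j)) (φ j))) = fun j => (a j).imp (Form.all x
      ((Form.zero x).imp ((w j).foldr (digit x) (φ j)))) := by
    funext j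
    rw [inst, R104.digits_num]
  rw [e]
  exact h3

namespace J266

theorem num_append (σ : List Bool) (b : Bool) :
    num (σ ++ [b]) = num σ + num σ + 1 + (if b then 1 else 0) := by
  simp only [num, List.foldl_append, List.foldl_cons, List.foldl_nil]
  cases b <;> simp <;> omega

theorem num_le (σ τ : List Bool) : num σ ≤ num (σ ++ τ) := by
  induction τ using List.reverseRecOn with
  | nil => simp
  | append_singleton τ b ih =>
    rw [← List.append_assoc, num_append]
    omega

theorem length_le_num (σ : List Bool) : σ.length ≤ num σ := by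
  induction σ using List.reverseRecOn with
  | nil => simp
  | append_singleton τ b ih =>
    rw [num_append, List.length_append]
    simp only [List.length_cons, List.length_nil]
    omega

theorem closed_fImp (y n : Sy) : (fImp y n).Closed := by
  intro x hx; simp [fImp, free_alls] at hx
theorem av_fImp (y n : Sy) : Av (fImp y n) := by simp [fImp, av_alls, ok]

/-- the next digit -/
theorem stepY (E : Setting) (b : Bool) {f : J → List Bool} (hf : Pb sz fun j => (f j).length)
    (hn : Pb sz fun j => num (f j))
    (h : PD E.Γ sz C (fun j => tr (mk E.b [Yf E.b (f j), Nf E.b (num (f j))])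
      (fImp (.o 0) (.o 1)))) :
    PD E.Γ sz C (fun j => tr (mk E.b [Yf E.b (f j ++ [b]), Nf E.b (num (f j ++ [b]))])
      (fImp (.o 0) (.o 1))) := by
  simp only [num_append]
  have r : ∀ R ∈ [fun j => Yf E.b (f j), fun j => Nf E.b (num (f j)),
      fun j => Yf E.b (f j ++ [b]), fun j => Nf E.b (num (f j) + num (f j)),
      fun j => Nf E.b (num (f j) + num (f j) + 1),
      fun j => Nf E.b (num (f j) + num (f j) + 1 + 1)], Role sz R := by
    intro R hR
    simp only [List.mem_cons, List.not_mem_nil, or_false] at hR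
    rcases hR with rfl | rfl | rfl | rfl | rfl | rfl
    · exact E.yf_role' hf
    · exact E.nf_role' hn
    · exact E.yf_role' (by simpa using hf.add (Pb.const 1))
    · exact E.nf_role' (hn.add hn)
    · exact E.nf_role' ((hn.add hn).add (Pb.const 1))
    · exact E.nf_role' (((hn.add hn).add (Pb.const 1)).add (Pb.const 1))
  have l1 : PD E.Γ sz C (trR E.b [fun j => Yf E.b (f j), fun j => Nf E.b (num (f j)),
      fun j => Yf E.b (f j ++ [b]), fun j => Nf E.b (num (f j) + num (f j)),
      fun j => Nf E.b (num (f j) + num (f j) + 1),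
      fun j => Nf E.b (num (f j) + num (f j) + 1 + 1)] (fImp (.o 2) (.o (if b then 5 else 4)))) := by
    refine E.stepM r [fImp (.o 0) (.o 1), defEq (.o 2) (dY b (.o 0)), fAd (.o 1) (.o 1) (.o 3),
      defEq (.o 4) (dN (.o 3)), defEq (.o 5) (dN (.o 4))] _ ?_ (closed_fImp _ _) (av_fImp _ _) ?_ ?_
    · intro ψ hψ
      simp only [List.mem_cons, List.not_mem_nil, or_false] at hψ
      rcases hψ with rfl | rfl | rfl | rfl | rfl
      · exact ⟨closed_fImp _ _, av_fImp _ _⟩
      · exact ⟨closed_dY _ _ _, av_dY _ _ _⟩
      · exact ⟨closed_fAd _ _ _, av_fAd _ _ _⟩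
      · exact ⟨closed_dN _ _, av_dN _ _⟩
      · exact ⟨closed_dN _ _, av_dN _ _⟩
    · intro S v hM hv
      have h1 := (sat_fImp S _ _ v).1 (hv (fImp (.o 0) (.o 1)) (by simp))
      have h2 := sem_dY (hv (defEq (.o 2) (dY b (.o 0))) (by simp))
      have h3 := (sat_fAd S _ _ _ v).1 (hv (fAd (.o 1) (.o 1) (.o 3)) (by simp))
      have h4 := sem_dN (hv (defEq (.o 4) (dN (.o 3))) (by simp))
      have h5 := sem_dN (hv (defEq (.o 5) (dN (.o 4))) (by simp))
      rw [sat_fImp]
      intro x hx
      obtain ⟨k, hk, hA⟩ := (h2 x).1 hx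
      cases b with
      | false =>
        simp only [App, Bool.false_eq_true, if_false] at hA ⊢
        obtain ⟨u, h6, h7⟩ := hA
        exact (h4 x).2 ⟨u, h3 _ _ _ (h1 _ hk) (h1 _ hk) h6, h7⟩
      | true =>
        simp only [App, if_true] at hA ⊢
        obtain ⟨u, t, h6, h7, h8⟩ := hA
        exact (h5 x).2 ⟨t, (h4 t).2 ⟨u, h3 _ _ _ (h1 _ hk) (h1 _ hk) h6, h7⟩, h8⟩
    · intro ψ hψ
      simp only [List.mem_cons, List.not_mem_nil, or_false] at hψ
      rcases hψ with rfl | rfl | rfl | rfl | rfl
      · exact h
      · cases b with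
        | false => exact E.yf_succ false hf
        | true => exact E.yf_succ true hf
      · exact E.ad hn hn
      · exact E.nf_succ (hn.add hn)
      · exact E.nf_succ ((hn.add hn).add (Pb.const 1))
  cases b with
  | false => exact l1
  | true => exact l1

end J266

/-- for numbers of polynomial size the dyadic numeral implies the unary numeral -/
theorem Setting.yn (E : Setting) {f : J → ℕ} (hf : Pb sz f) :
    PD E.Γ sz C (fun j => tr (mk E.b [Yf E.b (digits (f j)), Nf E.b (f j)])
      (fImp (.o 0) (.o 1))) := by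
  have hd : ∀ n, (digits n).length ≤ n := fun n => by
    have := J266.length_le_num (digits n)
    rwa [R104.num_digits] at this
  have hn : ∀ n k, num ((digits n).take k) ≤ n := fun n k => by
    have := J266.num_le ((digits n).take k) ((digits n).drop k)
    rwa [List.take_append_drop, R104.num_digits] at this
  have psz : Pb (fun p : J × ℕ => sz p.1 + p.2) (fun p => sz p.1) := Pb.size.mono fun p => by simp
  have main : PD E.Γ (fun p : J × ℕ => sz p.1 + p.2) (fun p => C p.1)
      (fun p => tr (mk E.b [Yf E.b ((digits (f p.1)).take p.2),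
        Nf E.b (num ((digits (f p.1)).take p.2))]) (fImp (.o 0) (.o 1))) := by
    refine PD.ind (F := fun j k => tr (mk E.b [Yf E.b ((digits (f j)).take k),
        Nf E.b (num ((digits (f j)).take k))]) (fImp (.o 0) (.o 1))) ?_ ?_
    · refine E.stepM (Rs := [fun _ => Z0, fun _ => Z0]) ?_ [fZ (.o 0), fZ (.o 1)]
        (fImp (.o 0) (.o 1)) ?_ (J266.closed_fImp _ _) (J266.av_fImp _ _) ?_ ?_
      · intro R hR
        simp only [List.mem_cons, List.not_mem_nil, or_false, or_self] at hR
        rw [hR]; exact role_Z0
      · intro ψ hψ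
        simp only [List.mem_cons, List.not_mem_nil, or_false] at hψ
        rcases hψ with rfl | rfl
        · exact ⟨closed_fZ _, av_fZ _⟩
        · exact ⟨closed_fZ _, av_fZ _⟩
      · intro S v hM hv
        have h1 := (sat_fZ S _ v).1 (hv (fZ (.o 0)) (by simp))
        have h2 := (sat_fZ S _ v).1 (hv (fZ (.o 1)) (by simp))
        rw [sat_fImp]
        intro x hx
        exact (h2 x).2 ((h1 x).1 hx)
      · intro ψ hψ
        simp only [List.mem_cons, List.not_mem_nil, or_false] at hψ
        rcases hψ with rfl | rfl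
        · exact E.z0
        · exact E.z0
    · refine PD.split (α := Option Bool) (fun p : J × ℕ => (digits (f p.1))[p.2]?) ?_
      rintro (_ | b)
      · refine PD.hyp ?_
        rintro ⟨⟨j, k⟩, hj⟩
        have hk : (digits (f j)).length ≤ k := by simpa using hj
        have e1 : (digits (f j)).take (k + 1) = (digits (f j)).take k := by
          rw [List.take_of_length_le (by omega), List.take_of_length_le hk]
        simp only [e1]
        exact List.mem_cons_self ..
      · have key : ∀ p : {p : J × ℕ // (digits (f p.1))[p.2]? = some b},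
            (digits (f p.1.1)).take (p.1.2 + 1) = (digits (f p.1.1)).take p.1.2 ++ [b] := by
          rintro ⟨⟨j, k⟩, hj⟩
          simp only at hj ⊢
          rw [List.take_add_one, hj]; rfl
        have pw : Pb (fun p : {p : J × ℕ // (digits (f p.1))[p.2]? = some b} => sz p.1.1 + p.1.2)
            (fun p => sz p.1.1) := Pb.size.mono fun p => by simp
        simp only [key]
        refine J266.stepY E b (f := fun p : {p : J × ℕ // (digits (f p.1))[p.2]? = some b} =>
          (digits (f p.1.1)).take p.1.2) ?_ ?_ ?_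
        · exact (hf.comp (fun p => p.1.1) pw).mono fun p => by
            rw [List.length_take]; exact (min_le_right _ _).trans (hd _)
        · exact (hf.comp (fun p => p.1.1) pw).mono fun p => hn _ _
        · exact PD.hyp fun p => List.mem_cons_self ..
  have h2 := main.comp (sz' := sz) (fun j : J => (j, (digits (f j)).length))
    (Pb.size.add (hf.mono fun j => hd _))
  simp only [List.take_length, R104.num_digits] at h2
  exact h2

end Pool.Agent.TH672
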