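import Pool.Agent.W180.RR.Plc

/-!
# Ridout's theorem for real algebraic numbers and denominators with a large `S`-part
-/

set_option autoImplicit false

namespace Pool.Agent.TH629.RidM

open Finset Polynomial NumberField
open Pool.Agent.W180.RR

/-- `S`-units -/
lemma sunit (S : Finset ℕ) (hS : ∀ ℓ ∈ S, ℓ.Prime) (d : ℕ) (hd : d ≠ 0)
    (hdS : ∀ ℓ : ℕ, ℓ.Prime → ℓ ∣ d → ℓ ∈ S) :
    (d : ℝ) * ∏ ℓ ∈ S, (padicNorm ℓ ((d : ℤ) : ℚ) : ℝ) = 1 := by
  classical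
  have h2 : ∀ ℓ ∈ S, (padicNorm ℓ ((d : ℤ) : ℚ) : ℝ) = ((ℓ : ℝ) ^ d.factorization ℓ)⁻¹ := by
    intro ℓ hℓ
    rw [padicNorm.eq_zpow_of_nonzero (by exact_mod_cast hd), padicValRat.of_int,
      Nat.factorization_def d (hS ℓ hℓ)]
    push_cast
    rw [zpow_neg, padicValInt.of_nat, zpow_natCast]
  rw [Finset.prod_congr rfl h2, Finset.prod_inv_distrib]
  have h3 : (d : ℝ) = ∏ ℓ ∈ S, (ℓ : ℝ) ^ d.factorization ℓ := by
    have h4 : d.factorization.prod (fun p k => p ^ k) = d := Nat.prod_factorization_pow_eq_self hd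
    have h5 : d.factorization.prod (fun p k => p ^ k) = ∏ ℓ ∈ S, ℓ ^ d.factorization ℓ := by
      apply Finsupp.prod_of_support_subset
      · intro ℓ hℓ
        rw [Nat.support_factorization] at hℓ
        exact hdS ℓ (Nat.prime_of_mem_primeFactors hℓ) (Nat.dvd_of_mem_primeFactors hℓ)
      · intro i _
        exact pow_zero _
    rw [h4] at h5
    have h6 : (d : ℝ) = ((∏ ℓ ∈ S, ℓ ^ d.factorization ℓ : ℕ) : ℝ) := by exact_mod_cast h5
    rw [h6]
    push_cast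
    rfl
  have h4 : (d : ℝ) ≠ 0 := by exact_mod_cast hd
  rw [← h3]
  exact mul_inv_cancel₀ h4

/-- Ridout's theorem: approximations whose denominators are divisible by a large number `d` composed
of given primes. -/
theorem ridout_meas (α : ℝ) (hα : IsAlgebraic ℚ α) (hirr : Irrational α) (S : Finset ℕ)
    (hS : ∀ ℓ ∈ S, ℓ.Prime) (ε : ℝ) (hε : 0 < ε) :
    ∃ c : ℝ, 0 < c ∧ ∀ q : ℕ, 1 ≤ q → ∀ d : ℕ, d ∣ q →
      (∀ ℓ : ℕ, ℓ.Prime → ℓ ∣ d → ℓ ∈ S) →
      ∀ p : ℤ, c * d ≤ (q : ℝ) ^ (1 + ε) * |q * α - p| := by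
  classical
  have hα0 : α ≠ 0 := hirr.ne_zero
  let K : IntermediateField ℚ ℝ := IntermediateField.adjoin ℚ {α}
  have : FiniteDimensional ℚ K := IntermediateField.adjoin.finiteDimensional hα.isIntegral
  have : NumberField K := { to_charZero := inferInstance, to_finiteDimensional := inferInstance }
  let a : K := ⟨α, IntermediateField.mem_adjoin_simple_self ℚ α⟩
  have haR : (a : ℝ) = α := rfl
  have ha0 : a ≠ 0 := by
    intro h
    exact hα0 (by rw [← haR, h]; rfl)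
  -- an integral multiple of the inverse
  have hal : IsAlgebraic ℤ (a⁻¹) :=
    (IsFractionRing.isAlgebraic_iff ℤ ℚ K).2 (Algebra.IsAlgebraic.isAlgebraic _)
  obtain ⟨D, hD0, hD⟩ := hal.exists_integral_multiple
  let ξ0 : K := D • a⁻¹
  have hξR : ((ξ0 : K) : ℝ) = D * α⁻¹ := by
    show ((D • a⁻¹ : K) : ℝ) = _
    rw [zsmul_eq_mul]
    push_cast
    rfl
  -- the polynomial
  let g : ℤ[X] := X * minpoly ℤ ξ0
  have hg : g.Monic := monic_X.mul (minpoly.monic hD)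
  have hg0 : 0 < g.natDegree := by
    have h1 : g.natDegree = 1 + (minpoly ℤ ξ0).natDegree := by
      rw [Monic.natDegree_mul monic_X (minpoly.monic hD), natDegree_X]
    omega
  have hgξ : aeval ξ0 g = 0 := by
    show aeval ξ0 (X * minpoly ℤ ξ0) = 0
    rw [map_mul, minpoly.aeval, mul_zero]
  have hgz : aeval (0 : K) g = 0 := by
    show aeval (0 : K) (X * minpoly ℤ ξ0) = 0
    rw [map_mul, aeval_X, zero_mul]
  -- absolute values
  let f0 : AbsoluteValue K ℝ := (AbsoluteValue.abs (S := ℝ)).comp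
    (f := algebraMap K ℝ) (algebraMap K ℝ).injective
  have hf0 : ∀ x : K, f0 x = |(x : ℝ)| := fun x => rfl
  obtain ⟨Y, -, -, -, -, -, -, hY⟩ := exists_sys K S hS
  have hprod : ∀ n : ℤ, n ≠ 0 → 1 ≤ f0 (n : K) * ∏ i, Y.fs i (n : K) := by
    intro n hn
    have h1 := prod_ge S hS n hn
    rw [hf0]
    simp_rw [hY]
    rw [Finset.prod_coe_sort S (fun ℓ => (padicNorm ℓ (n : ℚ) : ℝ))]
    push_cast
    exact h1
  obtain ⟨C, hC0, hC⟩ := ridout f0 Y.fs Y.na Y.int hprod g hg hg0 ξ0 (fun _ => 0) hgξ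
    (fun _ => hgz) ε hε
  have hDR : (0 : ℝ) < |(D : ℝ)| := abs_pos.2 (by exact_mod_cast hD0)
  have hαR : (0 : ℝ) < |α| := abs_pos.2 hα0
  obtain ⟨M, hM⟩ : ∃ M : ℝ, M = |(D : ℝ)| + |α| + 1 := ⟨_, rfl⟩
  have hM1 : 1 ≤ M := by rw [hM]; linarith
  have hMp : 0 < M ^ (1 + ε) := Real.rpow_pos_of_pos (by linarith) _
  refine ⟨min (min 1 |α|) (|α| / (|(D : ℝ)| * Real.exp C * M ^ (1 + ε))),
    lt_min (lt_min one_pos hαR) (by positivity), ?_⟩
  intro q hq d hdq hdS p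
  obtain ⟨c, hc⟩ : ∃ c : ℝ, c = min (min 1 |α|) (|α| / (|(D : ℝ)| * Real.exp C * M ^ (1 + ε))) :=
    ⟨_, rfl⟩
  rw [← hc]
  have hc1 : c ≤ 1 := by rw [hc]; exact (min_le_left _ _).trans (min_le_left _ _)
  have hcα : c ≤ |α| := by rw [hc]; exact (min_le_left _ _).trans (min_le_right _ _)
  have hc3 : c ≤ |α| / (|(D : ℝ)| * Real.exp C * M ^ (1 + ε)) := by rw [hc]; exact min_le_right _ _
  have hqR : (1 : ℝ) ≤ q := by exact_mod_cast hq
  have hq0 : (0 : ℝ) < q := by linarith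
  have hd0 : d ≠ 0 := by
    rintro rfl
    rw [zero_dvd_iff] at hdq
    omega
  have hdR : (0 : ℝ) < d := by exact_mod_cast Nat.pos_of_ne_zero hd0
  have hdq' : (d : ℝ) ≤ q := by exact_mod_cast Nat.le_of_dvd (by omega) hdq
  have hqq : (q : ℝ) ≤ (q : ℝ) ^ (1 + ε) := by
    calc (q : ℝ) = (q : ℝ) ^ (1 : ℝ) := (Real.rpow_one _).symm
      _ ≤ (q : ℝ) ^ (1 + ε) := Real.rpow_le_rpow_of_exponent_le hqR (by linarith)
  have hq1 : 1 ≤ (q : ℝ) ^ (1 + ε) := hqR.trans hqq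
  rcases le_or_gt 1 (|q * α - p|) with hbig | hsmall
  · calc c * d ≤ 1 * q := mul_le_mul hc1 hdq' hdR.le zero_le_one
      _ = q := one_mul _
      _ ≤ (q : ℝ) ^ (1 + ε) * 1 := by rw [mul_one]; exact hqq
      _ ≤ _ := mul_le_mul_of_nonneg_left hbig (by linarith)
  rcases eq_or_ne p 0 with hp | hp
  · subst hp
    rw [Int.cast_zero, sub_zero, abs_mul, abs_of_pos hq0]
    calc c * d ≤ |α| * q := mul_le_mul hcα hdq' hdR.le hαR.le
      _ = 1 * (q * |α|) := by ring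
      _ ≤ (q : ℝ) ^ (1 + ε) * (q * |α|) := mul_le_mul_of_nonneg_right hq1 (by positivity)
  -- the main case
  have hne : (q : ℝ) * α - p ≠ 0 := by
    have h1 : Irrational (q * α) := hirr.natCast_mul (by omega)
    exact sub_ne_zero.2 (h1.ne_int p)
  have hP0 : (D * q : ℤ) ≠ 0 := mul_ne_zero hD0 (by exact_mod_cast (by omega : q ≠ 0))
  obtain ⟨G, hG⟩ : ∃ G : ℕ, G = Int.gcd (D * q) p := ⟨_, rfl⟩
  have hG0 : 0 < G := by
    rw [hG]
    exact Int.gcd_pos_of_ne_zero_right _ hp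
  obtain ⟨P', hP'⟩ : (G : ℤ) ∣ D * q := by rw [hG]; exact Int.gcd_dvd_left _ _
  obtain ⟨Q', hQ'⟩ : (G : ℤ) ∣ p := by rw [hG]; exact Int.gcd_dvd_right _ _
  have hcop : IsCoprime P' Q' := by
    rw [Int.isCoprime_iff_gcd_eq_one]
    have h1 : Int.gcd (D * q) p = G * Int.gcd P' Q' := by
      rw [hP', hQ', Int.gcd_mul_left]
      simp
    rw [← hG] at h1
    exact Nat.eq_of_mul_eq_mul_left hG0 (by rw [← h1, mul_one])
  have hGR : (1 : ℝ) ≤ G := by exact_mod_cast hG0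
  have hG0R : (0 : ℝ) < G := by linarith
  have hP'0 : P' ≠ 0 := by
    rintro rfl
    rw [mul_zero] at hP'
    exact hP0 hP'
  have hP'R : (G : ℝ) * P' = D * q := by exact_mod_cast hP'.symm
  have hQ'R : (G : ℝ) * Q' = p := by exact_mod_cast hQ'.symm
  -- the value
  have hval : (((P' : K) - ξ0 * Q' : K) : ℝ) = D * α⁻¹ * (q * α - p) / G := by
    push_cast
    rw [hξR, eq_div_iff hG0R.ne']
    have : (P' - D * α⁻¹ * Q' : ℝ) * G = G * P' - D * α⁻¹ * (G * Q') := by ring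
    rw [this, hP'R, hQ'R]
    field_simp
  have hvalne : (P' : K) - ξ0 * Q' ≠ 0 := by
    intro h0
    rw [h0] at hval
    have h1 : (((0 : K) : K) : ℝ) = 0 := rfl
    rw [h1] at hval
    have h2 : D * α⁻¹ * (q * α - p) / G ≠ 0 := by
      refine div_ne_zero (mul_ne_zero (mul_ne_zero ?_ (inv_ne_zero hα0)) hne) hG0R.ne'
      exact_mod_cast hD0
    exact h2 hval.symm
  have hP'K : ∀ i : S, (P' : K) - (fun _ : S => (0 : K)) i * Q' ≠ 0 := by
    intro i
    simp only [zero_mul, sub_zero]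
    exact_mod_cast hP'0
  have hmain := hC P' Q' hcop hvalne hP'K
  have hHH1 := HH_ge_one (coprime_ne hcop)
  have hHHpos : 0 < HH P' Q' := by linarith
  have hHHle : HH P' Q' ≤ M * q := by
    unfold HH
    apply max_le
    · have h1 : |(P' : ℝ)| ≤ G * |(P' : ℝ)| := le_mul_of_one_le_left (abs_nonneg _) hGR
      have h2 : (G : ℝ) * |(P' : ℝ)| = |(D : ℝ)| * q := by
        have e1 : (G : ℝ) * |(P' : ℝ)| = |(G : ℝ) * P'| := by rw [abs_mul, abs_of_pos hG0R]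
        rw [e1, hP'R, abs_mul, abs_of_pos hq0]
      have h3 : |(D : ℝ)| * q ≤ M * q := by
        apply mul_le_mul_of_nonneg_right _ hq0.le
        rw [hM]; linarith
      linarith
    · have h1 : |(Q' : ℝ)| ≤ G * |(Q' : ℝ)| := le_mul_of_one_le_left (abs_nonneg _) hGR
      have h2 : (G : ℝ) * |(Q' : ℝ)| = |(p : ℝ)| := by
        have e1 : (G : ℝ) * |(Q' : ℝ)| = |(G : ℝ) * Q'| := by rw [abs_mul, abs_of_pos hG0R]
        rw [e1, hQ'R]
      have h3 : |(p : ℝ)| ≤ |α| * q + 1 := by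
        have e : (p : ℝ) = q * α - (q * α - p) := by ring
        rw [e]
        refine (abs_sub _ _).trans ?_
        rw [abs_mul, abs_of_pos hq0]
        linarith
      have h4 : |α| * q + 1 ≤ M * q := by
        rw [hM]
        nlinarith
      linarith
  -- the archimedean part
  have hf0v : f0 ((P' : K) - ξ0 * Q') = |(D : ℝ)| * |α|⁻¹ * |q * α - p| / G := by
    rw [hf0, hval, abs_div, abs_mul, abs_mul, abs_inv, abs_of_pos hG0R]
  have hxpos : 0 < |q * α - p| := abs_pos.2 hne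
  -- the other part
  have hpad : (∏ ℓ ∈ S, (padicNorm ℓ (P' : ℚ) : ℝ)) ≤ G / d := by
    have h1 : ∀ ℓ ∈ S, (padicNorm ℓ ((D * q : ℤ) : ℚ) : ℝ) =
        (padicNorm ℓ (P' : ℚ) : ℝ) * (padicNorm ℓ (((G : ℕ) : ℤ) : ℚ) : ℝ) := by
      intro ℓ hℓ
      have : Fact ℓ.Prime := ⟨hS ℓ hℓ⟩
      rw [hP']
      push_cast
      rw [padicNorm.mul]
      push_cast
      ring
    have h2 : ∀ ℓ ∈ S, (padicNorm ℓ ((D * q : ℤ) : ℚ) : ℝ) ≤
        (padicNorm ℓ (((d : ℕ) : ℤ) : ℚ) : ℝ) := by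
      intro ℓ hℓ
      have : Fact ℓ.Prime := ⟨hS ℓ hℓ⟩
      obtain ⟨q', hq'⟩ := hdq
      have e : (D * q : ℤ) = (d : ℤ) * (D * q') := by
        rw [hq']; push_cast; ring
      rw [e]
      push_cast
      have h3 : padicNorm ℓ ((d : ℚ) * (D * q')) ≤ padicNorm ℓ (d : ℚ) := by
        rw [padicNorm.mul]
        have h4 : padicNorm ℓ ((D : ℚ) * q') ≤ 1 := by
          have := padicNorm.of_int (p := ℓ) (D * q')
          push_cast at this
          exact this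
        exact mul_le_of_le_one_right (padicNorm.nonneg _) h4
      exact_mod_cast h3
    have h3 : (∏ ℓ ∈ S, (padicNorm ℓ (P' : ℚ) : ℝ)) *
        (∏ ℓ ∈ S, (padicNorm ℓ (((G : ℕ) : ℤ) : ℚ) : ℝ)) ≤ 1 / d := by
      rw [← Finset.prod_mul_distrib]
      have h4 := sunit S hS d hd0 hdS
      have h5 : (∏ ℓ ∈ S, (padicNorm ℓ ((d : ℤ) : ℚ) : ℝ)) = 1 / d := by
        rw [eq_div_iff hdR.ne', mul_comm]
        exact h4
      rw [← h5]
      refine Finset.prod_le_prod (fun ℓ _ => ?_) fun ℓ hℓ => ?_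
      · exact mul_nonneg (by exact_mod_cast padicNorm.nonneg _)
          (by exact_mod_cast padicNorm.nonneg _)
      · rw [← h1 ℓ hℓ]
        exact h2 ℓ hℓ
    have h4 := prod_ge S hS (G : ℤ) (by exact_mod_cast hG0.ne')
    have h5 : |(((G : ℕ) : ℤ) : ℝ)| = G := by
      rw [Int.cast_natCast, abs_of_pos hG0R]
    rw [h5] at h4
    have h6 : 0 ≤ ∏ ℓ ∈ S, (padicNorm ℓ (P' : ℚ) : ℝ) :=
      Finset.prod_nonneg fun ℓ _ => by exact_mod_cast padicNorm.nonneg _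
    rw [le_div_iff₀ hdR]
    rw [le_div_iff₀ hdR] at h3
    calc (∏ ℓ ∈ S, (padicNorm ℓ (P' : ℚ) : ℝ)) * d
        = (∏ ℓ ∈ S, (padicNorm ℓ (P' : ℚ) : ℝ)) * d * 1 := (mul_one _).symm
      _ ≤ (∏ ℓ ∈ S, (padicNorm ℓ (P' : ℚ) : ℝ)) * d *
          (G * ∏ ℓ ∈ S, (padicNorm ℓ (((G : ℕ) : ℤ) : ℚ) : ℝ)) :=
          mul_le_mul_of_nonneg_left h4 (by positivity)
      _ = ((∏ ℓ ∈ S, (padicNorm ℓ (P' : ℚ) : ℝ)) *
          (∏ ℓ ∈ S, (padicNorm ℓ (((G : ℕ) : ℤ) : ℚ) : ℝ)) * d) * G := by ring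
      _ ≤ 1 * G := mul_le_mul_of_nonneg_right h3 hG0R.le
      _ = G := one_mul _
  have hpadpos : ∀ ℓ ∈ S, (0 : ℝ) < (padicNorm ℓ (P' : ℚ) : ℝ) := by
    intro ℓ hℓ
    have : Fact ℓ.Prime := ⟨hS ℓ hℓ⟩
    have h1 : padicNorm ℓ (P' : ℚ) ≠ 0 := padicNorm.nonzero (by exact_mod_cast hP'0)
    have h2 : 0 < padicNorm ℓ (P' : ℚ) := lt_of_le_of_ne (padicNorm.nonneg _) (Ne.symm h1)
    exact_mod_cast h2
  have hsum : Real.log (d / G) ≤ ∑ i : S, -Real.log (Y.fs i ((P' : K) - (0 : K) * Q')) := by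
    have e1 : ∀ i : S, -Real.log (Y.fs i ((P' : K) - (0 : K) * Q')) =
        -Real.log (padicNorm i.1 (P' : ℚ) : ℝ) := by
      intro i
      rw [zero_mul, sub_zero, hY]
    rw [Finset.sum_congr rfl (fun i _ => e1 i),
      Finset.sum_coe_sort S (fun ℓ => -Real.log (padicNorm ℓ (P' : ℚ) : ℝ)),
      Finset.sum_neg_distrib, ← Real.log_prod (fun ℓ hℓ => (hpadpos ℓ hℓ).ne')]
    have h1 : 0 < ∏ ℓ ∈ S, (padicNorm ℓ (P' : ℚ) : ℝ) := Finset.prod_pos hpadpos
    have h2 := Real.log_le_log h1 hpad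
    have h3 : Real.log (d / G) = -Real.log (G / d) := by
      rw [← Real.log_inv, inv_div]
    rw [h3]
    linarith
  -- put together
  have h1 : -Real.log (f0 ((P' : K) - ξ0 * Q') / HH P' Q') =
      Real.log (|α| * G / (|(D : ℝ)| * |q * α - p|)) + Real.log (HH P' Q') := by
    rw [hf0v, ← Real.log_mul (by positivity) (by positivity), ← Real.log_inv]
    congr 1
    field_simp
  have h2 : Real.log (|α| * G / (|(D : ℝ)| * |q * α - p|)) + Real.log (d / G) ≤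
      (1 + ε) * Real.log (HH P' Q') + C := by
    have h3 := hmain
    rw [h1] at h3
    have h4 : ∑ i : S, -Real.log (Y.fs i ((P' : K) - (fun _ : S => (0 : K)) i * Q')) =
        ∑ i : S, -Real.log (Y.fs i ((P' : K) - (0 : K) * Q')) := rfl
    rw [h4] at h3
    linarith
  rw [← Real.log_mul (by positivity) (by positivity)] at h2
  have h3 : |α| * G / (|(D : ℝ)| * |q * α - p|) * (d / G) =
      |α| * d / (|(D : ℝ)| * |q * α - p|) := by
    field_simp
  rw [h3] at h2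
  have h4 : Real.log (HH P' Q') ≤ Real.log (M * q) := Real.log_le_log hHHpos hHHle
  have h5 : Real.log (|α| * d / (|(D : ℝ)| * |q * α - p|)) ≤
      Real.log ((M * q) ^ (1 + ε) * Real.exp C) := by
    rw [Real.log_mul (by positivity) (Real.exp_pos C).ne', Real.log_exp,
      Real.log_rpow (by positivity)]
    have := mul_le_mul_of_nonneg_left h4 (by linarith : 0 ≤ 1 + ε)
    linarith
  have h6 := (Real.log_le_log_iff (by positivity) (by positivity)).1 h5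
  rw [Real.mul_rpow (by linarith) hq0.le, div_le_iff₀ (by positivity)] at h6
  have h7 := mul_le_mul_of_nonneg_right hc3 hdR.le
  refine h7.trans ?_
  rw [div_mul_eq_mul_div, div_le_iff₀ (by positivity)]
  calc |α| * d ≤ M ^ (1 + ε) * (q : ℝ) ^ (1 + ε) * Real.exp C * (|(D : ℝ)| * |q * α - p|) := h6
    _ = _ := by ring

end Pool.Agent.TH629.RidM
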